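import Mathlib

/-! Vectors of constant weight in binary linear codes. -/

namespace R53.ConstWt

open Finset

variable {n : ℕ}

open Classical in
/-- elements of a subspace as a finset -/
noncomputable def elts (L : Submodule (ZMod 2) (Fin n → ZMod 2)) : Finset (Fin n → ZMod 2) :=
  univ.filter (fun v => v ∈ L)

/-- support of a vector -/
def supp (v : Fin n → ZMod 2) : Finset (Fin n) := univ.filter (fun i => v i ≠ 0)

open Classical in
/-- support of a subspace -/
noncomputable def suppL (L : Submodule (ZMod 2) (Fin n → ZMod 2)) : Finset (Fin n) :=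
  univ.filter (fun i => ∃ v ∈ L, v i ≠ 0)

theorem mem_elts (L : Submodule (ZMod 2) (Fin n → ZMod 2)) (v : Fin n → ZMod 2) :
    v ∈ elts L ↔ v ∈ L := by simp [elts]

theorem mem_supp (v : Fin n → ZMod 2) (i : Fin n) : i ∈ supp v ↔ v i ≠ 0 := by simp [supp]

theorem mem_suppL (L : Submodule (ZMod 2) (Fin n → ZMod 2)) (i : Fin n) :
    i ∈ suppL L ↔ ∃ v ∈ L, v i ≠ 0 := by simp [suppL]

theorem norm_eq (v : Fin n → ZMod 2) : hammingNorm v = (supp v).card := rfl

theorem card_elts (L : Submodule (ZMod 2) (Fin n → ZMod 2)) :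
    (elts L).card = 2 ^ Module.finrank (ZMod 2) L := by
  classical
  have h := Module.card_eq_pow_finrank (K := ZMod 2) (V := L)
  rw [ZMod.card] at h
  rw [← h, Fintype.card_subtype]
  rfl

theorem z2_add_self (a : ZMod 2) : a + a = 0 := by revert a; decide
theorem z2_a (a b : ZMod 2) (ha : a ≠ 0) (hb : b ≠ 0) : a + b = 0 := by
  revert a b; decide
theorem z2_b (a b : ZMod 2) (ha : a = 0) (hb : b ≠ 0) : a + b ≠ 0 := by
  revert a b; decide
theorem z2_c (a b : ZMod 2) (h : a ≠ 0 ↔ b ≠ 0) : a + b = 0 := by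
  revert a b; decide
theorem z2_one (a : ZMod 2) (h : a ≠ 0) : a = 1 := by revert a; decide

theorem add_self' (v : Fin n → ZMod 2) : v + v = 0 := by
  funext i; exact z2_add_self _

theorem half (L : Submodule (ZMod 2) (Fin n → ZMod 2)) (i : Fin n) (h : ∃ v ∈ L, v i ≠ 0) :
    2 * ((elts L).filter (fun v => v i ≠ 0)).card = (elts L).card := by
  obtain ⟨v0, hv0, hv0i⟩ := h
  have h1 := Finset.card_filter_add_card_filter_not (s := elts L) (fun v : Fin n → ZMod 2 => v i ≠ 0)
  have h2 : ((elts L).filter (fun v => v i ≠ 0)).card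
      = ((elts L).filter (fun v => ¬ (v i ≠ 0))).card := by
    apply Finset.card_bij (fun v _ => v + v0)
    · intro v hv
      rw [Finset.mem_filter, mem_elts] at hv ⊢
      refine ⟨L.add_mem hv.1 hv0, ?_⟩
      simp only [Pi.add_apply, not_not]
      exact z2_a _ _ hv.2 hv0i
    · intro v _ w _ hvw
      exact add_right_cancel hvw
    · intro v hv
      rw [Finset.mem_filter, mem_elts, not_not] at hv
      refine ⟨v + v0, ?_, ?_⟩
      · rw [Finset.mem_filter, mem_elts]
        exact ⟨L.add_mem hv.1 hv0, z2_b _ _ hv.2 hv0i⟩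
      · rw [add_assoc, add_self', add_zero]
  omega

/-- double counting -/
theorem dc (L : Submodule (ZMod 2) (Fin n → ZMod 2)) (A : Finset (Fin n)) :
    2 * ∑ v ∈ elts L, (A.filter (fun i => v i ≠ 0)).card = (elts L).card * (A ∩ suppL L).card := by
  classical
  have h1 : ∑ v ∈ elts L, (A.filter (fun i => v i ≠ 0)).card
      = ∑ i ∈ A, ((elts L).filter (fun v => v i ≠ 0)).card := by
    simp only [Finset.card_filter]
    rw [Finset.sum_comm]
  rw [h1, Finset.mul_sum]
  have h2 : ∀ i ∈ A, 2 * ((elts L).filter (fun v => v i ≠ 0)).card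
      = if i ∈ suppL L then (elts L).card else 0 := by
    intro i _
    by_cases hi : i ∈ suppL L
    · rw [if_pos hi]
      exact half L i ((mem_suppL L i).mp hi)
    · rw [if_neg hi]
      rw [mem_suppL] at hi
      push Not at hi
      rw [Finset.filter_eq_empty_iff.mpr]
      · simp
      · intro v hv
        rw [not_not]
        exact hi v ((mem_elts L v).mp hv)
  rw [Finset.sum_congr rfl h2, ← Finset.sum_filter, Finset.sum_const, smul_eq_mul, mul_comm,
    Finset.filter_mem_eq_inter]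

/-- sum of weights -/
theorem dc_univ (L : Submodule (ZMod 2) (Fin n → ZMod 2)) :
    2 * ∑ v ∈ elts L, hammingNorm v = (elts L).card * (suppL L).card := by
  have := dc L univ
  rw [Finset.univ_inter] at this
  exact this

theorem zero_mem_elts (L : Submodule (ZMod 2) (Fin n → ZMod 2)) : 0 ∈ elts L :=
  (mem_elts L 0).mpr L.zero_mem

theorem const_support (L : Submodule (ZMod 2) (Fin n → ZMod 2)) (w : ℕ)
    (h : ∀ v ∈ L, v ≠ 0 → hammingNorm v = w) :
    2 * (((elts L).card - 1) * w) = (elts L).card * (suppL L).card := by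
  rw [← dc_univ, ← Finset.add_sum_erase _ _ (zero_mem_elts L), hammingNorm_zero, zero_add]
  have : ∑ v ∈ (elts L).erase 0, hammingNorm v = ∑ v ∈ (elts L).erase 0, w := by
    apply Finset.sum_congr rfl
    intro v hv
    rw [Finset.mem_erase, mem_elts] at hv
    exact h v hv.2 hv.1
  rw [this, Finset.sum_const, smul_eq_mul, Finset.card_erase_of_mem (zero_mem_elts L)]

theorem dim_avoid (L : Submodule (ZMod 2) (Fin n → ZMod 2)) (s m : ℕ) (hm : Odd m)
    (h : ∀ v ∈ L, v ≠ 0 → hammingNorm v = 2 ^ s * m) :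
    Module.finrank (ZMod 2) L ≤ s + 1 := by
  by_contra hcon
  push Not at hcon
  obtain ⟨r, hr⟩ := Nat.exists_eq_add_of_lt hcon
  have h1 := const_support L _ h
  rw [card_elts, hr] at h1
  have h2 : (2 ^ (s + 1 + r + 1) - 1) * m = 2 * (2 ^ r * (suppL L).card) := by
    have h3 : 2 ^ (s + 1) * ((2 ^ (s + 1 + r + 1) - 1) * m)
        = 2 ^ (s + 1) * (2 * (2 ^ r * (suppL L).card)) := by
      calc 2 ^ (s + 1) * ((2 ^ (s + 1 + r + 1) - 1) * m)
          = 2 * ((2 ^ (s + 1 + r + 1) - 1) * (2 ^ s * m)) := by ring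
        _ = 2 ^ (s + 1 + r + 1) * (suppL L).card := h1
        _ = _ := by ring
    exact Nat.eq_of_mul_eq_mul_left (by positivity) h3
  have hodd : Odd ((2 ^ (s + 1 + r + 1) - 1) * m) := by
    apply Odd.mul _ hm
    apply Nat.Even.sub_odd (Nat.one_le_two_pow) _ odd_one
    exact ⟨2 ^ (s + 1 + r), by ring⟩
  rw [h2] at hodd
  exact (Nat.not_odd_iff_even.mpr (even_two_mul _)) hodd

/-- a maximal subspace whose nonzero vectors have weight `w` -/
theorem exists_max (U : Submodule (ZMod 2) (Fin n → ZMod 2)) (w : ℕ) (hw : 0 < w)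
    (L0 : Submodule (ZMod 2) (Fin n → ZMod 2)) (hL0 : L0 ≤ U)
    (hav : ∀ v ∈ L0, v ≠ 0 → hammingNorm v = w) :
    ∃ L : Submodule (ZMod 2) (Fin n → ZMod 2), L0 ≤ L ∧ L ≤ U ∧
      (∀ v ∈ L, v ≠ 0 → hammingNorm v = w) ∧
      ∀ u ∈ U, ∃ z ∈ U, hammingNorm z ≠ w ∧ z + u ∈ L := by
  obtain ⟨L, ⟨h1, h2, h3⟩, hmax⟩ := WellFounded.has_min
    (wellFounded_gt (α := Submodule (ZMod 2) (Fin n → ZMod 2)))
    {L | L0 ≤ L ∧ L ≤ U ∧ ∀ v ∈ L, v ≠ 0 → hammingNorm v = w} ⟨L0, le_rfl, hL0, hav⟩
  refine ⟨L, h1, h2, h3, ?_⟩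
  intro u hu
  by_cases huL : u ∈ L
  · refine ⟨0, U.zero_mem, ?_, ?_⟩
    · rw [hammingNorm_zero]; exact hw.ne
    · rw [zero_add]; exact huL
  · have hlt : L < L ⊔ Submodule.span (ZMod 2) {u} := by
      refine lt_of_le_of_ne le_sup_left ?_
      intro heq
      apply huL
      rw [heq]
      exact Submodule.mem_sup_right (Submodule.mem_span_singleton_self u)
    have hnot := fun h => hmax (L ⊔ Submodule.span (ZMod 2) {u}) h hlt
    have hle : L ⊔ Submodule.span (ZMod 2) {u} ≤ U := by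
      apply sup_le h2
      rw [Submodule.span_singleton_le_iff_mem]
      exact hu
    have : ¬ ∀ v ∈ L ⊔ Submodule.span (ZMod 2) {u}, v ≠ 0 → hammingNorm v = w := by
      intro hall
      exact hnot ⟨h1.trans le_sup_left, hle, hall⟩
    push Not at this
    obtain ⟨v, hv, hv0, hvw⟩ := this
    refine ⟨v, hle hv, hvw, ?_⟩
    obtain ⟨y, hy, c', hc', hsum⟩ := Submodule.mem_sup.mp hv
    obtain ⟨c, rfl⟩ := Submodule.mem_span_singleton.mp hc'
    by_cases hc : c = 0
    · subst hc
      rw [zero_smul, add_zero] at hsum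
      subst hsum
      exact absurd (h3 y hy hv0) hvw
    · have := z2_one c hc
      subst this
      rw [one_smul] at hsum
      rw [← hsum, add_assoc, add_self', add_zero]
      exact hy

/-- elements of the wrong weight -/
noncomputable def Z (U : Submodule (ZMod 2) (Fin n → ZMod 2)) (w : ℕ) :
    Finset (Fin n → ZMod 2) := (elts U).filter (fun v => hammingNorm v ≠ w)

theorem mem_Z (U : Submodule (ZMod 2) (Fin n → ZMod 2)) (w : ℕ) (v : Fin n → ZMod 2) :
    v ∈ Z U w ↔ v ∈ U ∧ hammingNorm v ≠ w := by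
  rw [Z, Finset.mem_filter, mem_elts]

theorem surj (U L : Submodule (ZMod 2) (Fin n → ZMod 2)) (w : ℕ)
    (h : ∀ u ∈ U, ∃ z ∈ U, hammingNorm z ≠ w ∧ z + u ∈ L) :
    ∀ u ∈ elts U, ∃ p ∈ (Z U w) ×ˢ (elts L), p.1 + p.2 = u := by
  intro u hu
  obtain ⟨z, hz, hzw, hzu⟩ := h u ((mem_elts U u).mp hu)
  refine ⟨(z, z + u), ?_, ?_⟩
  · rw [Finset.mem_product, mem_Z, mem_elts]
    exact ⟨⟨hz, hzw⟩, hzu⟩
  · simp only
    rw [← add_assoc, add_self', zero_add]

theorem card_le (U L : Submodule (ZMod 2) (Fin n → ZMod 2)) (w : ℕ)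
    (h : ∀ u ∈ U, ∃ z ∈ U, hammingNorm z ≠ w ∧ z + u ∈ L) :
    (elts U).card ≤ (Z U w).card * (elts L).card := by
  classical
  rw [← Finset.card_product]
  have : elts U ⊆ ((Z U w) ×ˢ (elts L)).image (fun p => p.1 + p.2) := by
    intro u hu
    obtain ⟨p, hp, hpu⟩ := surj U L w h u hu
    rw [Finset.mem_image]
    exact ⟨p, hp, hpu⟩
  exact (Finset.card_le_card this).trans Finset.card_image_le

theorem Z_lower (U : Submodule (ZMod 2) (Fin n → ZMod 2)) (s m a : ℕ) (hm : Odd m)
    (hU : Module.finrank (ZMod 2) U = s + 1 + a) : 2 ^ a ≤ (Z U (2 ^ s * m)).card := by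
  have hw : 0 < 2 ^ s * m := Nat.mul_pos (by positivity) hm.pos
  obtain ⟨L, _, _, h3, h4⟩ := exists_max U _ hw ⊥ bot_le (by
    intro v hv hv0
    exact absurd ((Submodule.mem_bot _).mp hv) hv0)
  have h5 := card_le U L _ h4
  have h6 := dim_avoid L s m hm h3
  rw [card_elts, card_elts, hU] at h5
  have h7 : 2 ^ Module.finrank (ZMod 2) L ≤ 2 ^ (s + 1) := Nat.pow_le_pow_right (by norm_num) h6
  have h8 : 2 ^ (s + 1) * 2 ^ a ≤ 2 ^ (s + 1) * (Z U (2 ^ s * m)).card := by
    calc 2 ^ (s + 1) * 2 ^ a = 2 ^ (s + 1 + a) := (pow_add 2 (s + 1) a).symm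
      _ ≤ _ := h5
      _ ≤ (Z U (2 ^ s * m)).card * 2 ^ (s + 1) := Nat.mul_le_mul_left _ h7
      _ = _ := mul_comm _ _
  exact Nat.le_of_mul_le_mul_left h8 (by positivity)

theorem norm_add (v t : Fin n → ZMod 2) :
    hammingNorm (v + t) + 2 * ((supp v).filter (fun i => t i ≠ 0)).card
      = hammingNorm v + hammingNorm t := by
  have key : ∀ a b : ZMod 2, (if a + b ≠ 0 then 1 else 0) + 2 * (if a ≠ 0 ∧ b ≠ 0 then 1 else 0)
      = (if a ≠ 0 then 1 else 0) + (if b ≠ 0 then 1 else 0 : ℕ) := by decide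
  simp only [hammingNorm, supp, Finset.filter_filter, Finset.card_filter, Pi.add_apply]
  rw [Finset.mul_sum, ← Finset.sum_add_distrib, ← Finset.sum_add_distrib]
  apply Finset.sum_congr rfl
  intro i _
  exact key _ _


/-- in the extremal case every vector of weight `w` lies in a subspace of dimension `s + 1` which
forms a transversal pair with `Z` -/
theorem exists_transversal (U : Submodule (ZMod 2) (Fin n → ZMod 2)) (s m a : ℕ) (hm : Odd m)
    (hU : Module.finrank (ZMod 2) U = s + 1 + a) (hZ : (Z U (2 ^ s * m)).card = 2 ^ a)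
    (p : Fin n → ZMod 2) (hp : p ∈ U) (hpw : hammingNorm p = 2 ^ s * m) :
    ∃ L : Submodule (ZMod 2) (Fin n → ZMod 2), p ∈ L ∧ L ≤ U ∧
      (∀ v ∈ L, v ≠ 0 → hammingNorm v = 2 ^ s * m) ∧ Module.finrank (ZMod 2) L = s + 1 ∧
      ∀ z₁ ∈ Z U (2 ^ s * m), ∀ z₂ ∈ Z U (2 ^ s * m), z₁ + z₂ ∈ L → z₁ = z₂ := by
  classical
  have hw : 0 < 2 ^ s * m := Nat.mul_pos (by positivity) hm.pos
  obtain ⟨L, h1, h2, h3, h4⟩ := exists_max U _ hw (Submodule.span (ZMod 2) {p})
    (by rw [Submodule.span_singleton_le_iff_mem]; exact hp) (by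
    intro v hv hv0
    obtain ⟨c, rfl⟩ := Submodule.mem_span_singleton.mp hv
    have hc : c ≠ 0 := by
      rintro rfl
      exact hv0 (zero_smul _ _)
    rw [z2_one c hc, one_smul]
    exact hpw)
  have h5 := card_le U L _ h4
  have h6 := dim_avoid L s m hm h3
  have h7 : Module.finrank (ZMod 2) L = s + 1 := by
    rw [card_elts, card_elts, hU, hZ, ← pow_add] at h5
    have := (Nat.pow_le_pow_iff_right (by norm_num : 1 < 2)).mp h5
    omega
  refine ⟨L, h1 (Submodule.mem_span_singleton_self p), h2, h3, h7, ?_⟩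
  intro z₁ hz₁ z₂ hz₂ hz
  have hcard : ((Z U (2 ^ s * m)) ×ˢ (elts L)).card ≤ (elts U).card := by
    rw [Finset.card_product, card_elts, card_elts, hU, hZ, h7, ← pow_add]
    apply le_of_eq
    congr 1
    omega
  have hinj := Finset.inj_on_of_surj_on_of_card_le (s := (Z U (2 ^ s * m)) ×ˢ (elts L))
    (t := elts U) (fun p _ => p.1 + p.2)
    (by
      intro q hq
      rw [Finset.mem_product, mem_Z, mem_elts] at hq
      rw [mem_elts]
      exact U.add_mem hq.1.1 (h2 hq.2))
    (by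
      intro u hu
      obtain ⟨q, hq, hqu⟩ := surj U L _ h4 u hu
      exact ⟨q, hq, hqu⟩) hcard
  have ha : (z₁, (0 : Fin n → ZMod 2)) ∈ (Z U (2 ^ s * m)) ×ˢ (elts L) := by
    rw [Finset.mem_product]
    exact ⟨hz₁, zero_mem_elts L⟩
  have hb : (z₂, z₁ + z₂) ∈ (Z U (2 ^ s * m)) ×ˢ (elts L) := by
    rw [Finset.mem_product]
    exact ⟨hz₂, (mem_elts _ _).mpr hz⟩
  have := hinj ha hb (by
    simp only
    rw [add_zero, add_comm z₁ z₂, ← add_assoc, add_self', zero_add])
  exact congrArg Prod.fst this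

/-- in the extremal case the set of vectors of the wrong weight is a subspace -/
theorem Z_add (U : Submodule (ZMod 2) (Fin n → ZMod 2)) (s m a : ℕ) (hm : Odd m)
    (hU : Module.finrank (ZMod 2) U = s + 1 + a) (hZ : (Z U (2 ^ s * m)).card = 2 ^ a)
    (z₁ z₂ : Fin n → ZMod 2) (h₁ : z₁ ∈ Z U (2 ^ s * m)) (h₂ : z₂ ∈ Z U (2 ^ s * m)) :
    z₁ + z₂ ∈ Z U (2 ^ s * m) := by
  have hw : 0 < 2 ^ s * m := Nat.mul_pos (by positivity) hm.pos
  by_contra hcon
  have hU12 : z₁ + z₂ ∈ U := U.add_mem ((mem_Z _ _ _).mp h₁).1 ((mem_Z _ _ _).mp h₂).1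
  rw [mem_Z] at hcon
  push Not at hcon
  have hpw := hcon hU12
  obtain ⟨L, hpL, _, _, _, h⟩ := exists_transversal U s m a hm hU hZ (z₁ + z₂) hU12 hpw
  have := h z₁ h₁ z₂ h₂ hpL
  rw [this, add_self', hammingNorm_zero] at hpw
  omega

/-- the subspace of vectors of the wrong weight -/
noncomputable def T (U : Submodule (ZMod 2) (Fin n → ZMod 2)) (w : ℕ) (hw : 0 < w)
    (hadd : ∀ z₁ z₂ : Fin n → ZMod 2, z₁ ∈ Z U w → z₂ ∈ Z U w → z₁ + z₂ ∈ Z U w) :
    Submodule (ZMod 2) (Fin n → ZMod 2) where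
  carrier := {v | v ∈ Z U w}
  add_mem' := fun {a b} ha hb => hadd a b ha hb
  zero_mem' := by
    show (0 : Fin n → ZMod 2) ∈ Z U w
    rw [mem_Z, hammingNorm_zero]
    exact ⟨U.zero_mem, hw.ne⟩
  smul_mem' := by
    intro c x hx
    by_cases hc : c = 0
    · subst hc
      rw [zero_smul]
      show (0 : Fin n → ZMod 2) ∈ Z U w
      rw [mem_Z, hammingNorm_zero]
      exact ⟨U.zero_mem, hw.ne⟩
    · rw [z2_one c hc, one_smul]
      exact hx

theorem equality (U : Submodule (ZMod 2) (Fin n → ZMod 2)) (s m a : ℕ) (hm : Odd m)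
    (_ha : 1 ≤ a)
    (hU : Module.finrank (ZMod 2) U = s + 1 + a) (hZ : (Z U (2 ^ s * m)).card = 2 ^ a) :
    a ≤ m ∧ (2 ^ (s + 1) - 1) * m + a ≤ n := by
  classical
  have hw : 0 < 2 ^ s * m := Nat.mul_pos (by positivity) hm.pos
  -- a vector of weight w
  obtain ⟨p, hp, hpw⟩ : ∃ p ∈ U, hammingNorm p = 2 ^ s * m := by
    by_contra hcon
    push Not at hcon
    have : Z U (2 ^ s * m) = elts U := by
      apply Finset.filter_true_of_mem
      intro v hv
      exact hcon v ((mem_elts _ _).mp hv)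
    rw [this, card_elts, hU] at hZ
    have := Nat.pow_right_injective (le_refl 2) hZ
    omega
  obtain ⟨L, hpL, hLU, hLw, hLd, hLz⟩ := exists_transversal U s m a hm hU hZ p hp hpw
  set W := T U _ hw (fun z₁ z₂ => Z_add U s m a hm hU hZ z₁ z₂) with hW
  have hWmem : ∀ v, v ∈ W ↔ v ∈ Z U (2 ^ s * m) := fun v => Iff.rfl
  have hWelts : elts W = Z U (2 ^ s * m) := by
    ext v; rw [mem_elts, hWmem]
  have hWcard : (elts W).card = 2 ^ a := by rw [hWelts, hZ]
  have hLcard : (elts L).card = 2 ^ (s + 1) := by rw [card_elts, hLd]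
  have hp0 : p ≠ 0 := by
    rintro rfl
    rw [hammingNorm_zero] at hpw
    omega
  -- sums
  have hsum : ∀ v ∈ L, v ≠ 0 → ∀ t ∈ W, hammingNorm (v + t) = 2 ^ s * m := by
    intro v hv hv0 t ht
    by_contra hcon
    have h1 : v + t ∈ W := by
      rw [hWmem, mem_Z]
      exact ⟨U.add_mem (hLU hv) ((mem_Z _ _ _).mp ht).1, hcon⟩
    have h2 : v ∈ W := by
      have := W.add_mem h1 ht
      rwa [add_assoc, add_self', add_zero] at this
    rw [hWmem, mem_Z] at h2
    exact h2.2 (hLw v hv hv0)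
  have hmeet : ∀ v ∈ L, v ≠ 0 → ∀ t ∈ W,
      hammingNorm t = 2 * ((supp v).filter (fun i => t i ≠ 0)).card := by
    intro v hv hv0 t ht
    have h1 := norm_add v t
    rw [hsum v hv hv0 t ht, hLw v hv hv0] at h1
    omega
  have hswap : ∀ v t : Fin n → ZMod 2, (supp v).filter (fun i => t i ≠ 0)
      = (supp t).filter (fun i => v i ≠ 0) := by
    intro v t
    ext i
    simp only [Finset.mem_filter, mem_supp]
    tauto
  -- single t
  have hsingle : ∀ t ∈ W, hammingNorm t = 2 ^ (s + 1) * ((supp t) \ suppL L).card := by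
    intro t ht
    have h1 := dc L (supp t)
    rw [hLcard] at h1
    have h2 : 2 * ∑ v ∈ elts L, ((supp t).filter (fun i => v i ≠ 0)).card
        = (2 ^ (s + 1) - 1) * hammingNorm t := by
      rw [← Finset.add_sum_erase _ _ (zero_mem_elts L)]
      have h3 : ((supp t).filter (fun i => (0 : Fin n → ZMod 2) i ≠ 0)).card = 0 := by simp
      rw [h3, zero_add, Finset.mul_sum]
      have h4 : ∀ v ∈ (elts L).erase 0, 2 * ((supp t).filter (fun i => v i ≠ 0)).card
          = hammingNorm t := by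
        intro v hv
        rw [Finset.mem_erase, mem_elts] at hv
        rw [← hswap v t]
        exact (hmeet v hv.2 hv.1 t ht).symm
      rw [Finset.sum_congr rfl h4, Finset.sum_const, smul_eq_mul,
        Finset.card_erase_of_mem (zero_mem_elts L), hLcard]
    rw [h2] at h1
    have h5 : (supp t ∩ suppL L).card + (supp t \ suppL L).card = hammingNorm t := by
      rw [norm_eq]
      exact Finset.card_inter_add_card_sdiff _ _
    have h6 : 1 ≤ 2 ^ (s + 1) := Nat.one_le_two_pow
    obtain ⟨N, hN⟩ := Nat.exists_eq_add_of_le h6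
    rw [hN] at h1 ⊢
    rw [Nat.add_sub_cancel_left] at h1
    nlinarith
  -- the set I₁
  set I₁ := suppL W \ suppL L with hI₁
  have hexists : ∀ t ∈ W, t ≠ 0 → ∃ i ∈ I₁, t i ≠ 0 := by
    intro t ht ht0
    have h1 := hsingle t ht
    have h2 : 0 < hammingNorm t := by
      rw [hammingNorm_pos_iff]; exact ht0
    have h3 : 0 < (supp t \ suppL L).card := by
      rcases Nat.eq_zero_or_pos (supp t \ suppL L).card with h | h
      · rw [h] at h1; omega
      · exact h
    obtain ⟨i, hi⟩ := Finset.card_pos.mp h3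
    rw [Finset.mem_sdiff, mem_supp] at hi
    refine ⟨i, ?_, hi.1⟩
    rw [hI₁, Finset.mem_sdiff, mem_suppL]
    exact ⟨⟨t, ht, hi.1⟩, hi.2⟩
  have hpow : 2 ^ a ≤ 2 ^ I₁.card := by
    rw [← hWcard, ← Finset.card_powerset]
    apply Finset.card_le_card_of_injOn (fun t => supp t ∩ I₁)
    · intro t _
      simp only [Finset.coe_powerset, Set.mem_preimage, Set.mem_powerset_iff, Finset.coe_subset]
      exact Finset.inter_subset_right
    · intro t₁ h₁ t₂ h₂ heq
      rw [Finset.mem_coe, mem_elts] at h₁ h₂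
      by_contra hne
      have hne' : t₁ + t₂ ≠ 0 := by
        intro h
        apply hne
        have : t₁ + t₂ + t₂ = t₂ := by rw [h, zero_add]
        rwa [add_assoc, add_self', add_zero] at this
      obtain ⟨i, hi, hit⟩ := hexists _ (W.add_mem h₁ h₂) hne'
      apply hit
      simp only [Pi.add_apply]
      apply z2_c
      have := Finset.ext_iff.mp heq i
      simp only [Finset.mem_inter, mem_supp, hi, and_true] at this
      exact this
  have haI : a ≤ I₁.card := (Nat.pow_le_pow_iff_right (by norm_num : 1 < 2)).mp hpow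
  -- the support of L
  have hsL : (suppL L).card = (2 ^ (s + 1) - 1) * m := by
    have h1 := const_support L _ hLw
    rw [hLcard] at h1
    have h2 : 2 ^ (s + 1) * (suppL L).card = 2 ^ (s + 1) * ((2 ^ (s + 1) - 1) * m) := by
      rw [← h1]; ring
    exact Nat.eq_of_mul_eq_mul_left (by positivity) h2
  constructor
  · -- a ≤ m
    have h1 := dc W (supp p)
    have h2 := dc_univ W
    have h3 : 2 * ∑ t ∈ elts W, ((supp p).filter (fun i => t i ≠ 0)).card
        = ∑ t ∈ elts W, hammingNorm t := by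
      rw [Finset.mul_sum]
      apply Finset.sum_congr rfl
      intro t ht
      exact (hmeet p hpL hp0 t ((mem_elts _ _).mp ht)).symm
    rw [h3] at h1
    rw [h1] at h2
    have hWpos : 0 < (elts W).card := by rw [hWcard]; positivity
    have h4 : (suppL W).card = 2 * (supp p ∩ suppL W).card := by
      apply Nat.eq_of_mul_eq_mul_left hWpos
      rw [← h2]; ring
    have h5 : (supp p ∩ suppL W).card ≤ 2 ^ s * m := by
      rw [← hpw, norm_eq]
      exact Finset.card_le_card Finset.inter_subset_left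
    -- the other count
    have h6 := dc W (univ \ suppL L)
    have h7 : ∑ t ∈ elts W, hammingNorm t
        = 2 ^ (s + 1) * ∑ t ∈ elts W, ((univ \ suppL L).filter (fun i => t i ≠ 0)).card := by
      rw [Finset.mul_sum]
      apply Finset.sum_congr rfl
      intro t ht
      rw [hsingle t ((mem_elts _ _).mp ht)]
      congr 2
      ext i
      simp only [Finset.mem_filter, Finset.mem_sdiff, mem_supp, Finset.mem_univ, true_and]
      tauto
    have h8 : (univ \ suppL L) ∩ suppL W = I₁ := by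
      ext i
      simp only [hI₁, Finset.mem_inter, Finset.mem_sdiff, Finset.mem_univ, true_and]
      tauto
    rw [h8] at h6
    have h9 := dc_univ W
    have h10 : (suppL W).card = 2 ^ (s + 1) * I₁.card := by
      apply Nat.eq_of_mul_eq_mul_left hWpos
      rw [← h9, h7]
      calc 2 * (2 ^ (s + 1) * ∑ t ∈ elts W, ((univ \ suppL L).filter (fun i => t i ≠ 0)).card)
          = 2 ^ (s + 1) * (2 * ∑ t ∈ elts W, ((univ \ suppL L).filter (fun i => t i ≠ 0)).card) := by
            ring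
        _ = 2 ^ (s + 1) * ((elts W).card * I₁.card) := by rw [h6]
        _ = _ := by ring
    have h11 : 2 ^ (s + 1) * I₁.card ≤ 2 ^ (s + 1) * m := by
      rw [← h10, h4]
      calc 2 * (supp p ∩ suppL W).card ≤ 2 * (2 ^ s * m) := Nat.mul_le_mul_left _ h5
        _ = _ := by ring
    exact haI.trans (Nat.le_of_mul_le_mul_left h11 (by positivity))
  · have h1 : (suppL L ∪ I₁).card = (suppL L).card + I₁.card := by
      apply Finset.card_union_of_disjoint
      rw [hI₁]
      exact Finset.disjoint_sdiff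
    have h2 : (suppL L ∪ I₁).card ≤ n := by
      have := Finset.card_le_univ (suppL L ∪ I₁)
      rwa [Fintype.card_fin] at this
    rw [h1, hsL] at h2
    omega

end R53.ConstWt
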