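import Pool.Agent.R53.ConstWt

/-! Construction of codes with many words of a given weight. -/

namespace R53.ConstWt

open Finset

theorem flip (x b : ZMod 2) (hb : b ≠ 0) :
    (if x ≠ 0 then 1 else 0) + (if x + b ≠ 0 then 1 else 0) = (1 : ℕ) := by
  revert x b; decide

theorem cnt (s : ℕ) (β : Fin (s + 1) → ZMod 2) (hβ : β ≠ 0) (c : ZMod 2) :
    ∑ g : Fin (s + 1) → ZMod 2, (if c + dotProduct g β ≠ 0 then 1 else 0) = 2 ^ s := by
  obtain ⟨i0, hi0⟩ : ∃ i, β i ≠ 0 := by
    by_contra hcon
    push Not at hcon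
    exact hβ (funext hcon)
  have h1 : ∑ g : Fin (s + 1) → ZMod 2, (if c + dotProduct g β ≠ 0 then 1 else 0)
      = ∑ g : Fin (s + 1) → ZMod 2, (if c + dotProduct g β + β i0 ≠ 0 then 1 else 0) := by
    rw [← Equiv.sum_comp (Equiv.addRight (Pi.single i0 (1 : ZMod 2)))]
    apply Finset.sum_congr rfl
    intro g _
    have : c + dotProduct ((Equiv.addRight (Pi.single i0 (1 : ZMod 2))) g) β
        = c + dotProduct g β + β i0 := by
      rw [Equiv.coe_addRight, add_dotProduct, single_dotProduct, one_mul, add_assoc]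
    rw [this]
  have h2 : ∑ g : Fin (s + 1) → ZMod 2, (if c + dotProduct g β ≠ 0 then 1 else 0)
      + ∑ g : Fin (s + 1) → ZMod 2, (if c + dotProduct g β + β i0 ≠ 0 then 1 else 0)
      = 2 ^ (s + 1) := by
    rw [← Finset.sum_add_distrib]
    rw [Finset.sum_congr rfl (fun g _ => flip (c + dotProduct g β) (β i0) hi0)]
    simp [ZMod.card]
  rw [← h1, pow_succ] at h2
  omega

/-- the index type -/
abbrev Idx (a b s : ℕ) : Type :=
  (Fin a × (Fin (s + 1) → ZMod 2)) ⊕ (Fin b × {g : Fin (s + 1) → ZMod 2 // g ≠ 0})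

theorem card_Idx (a b s : ℕ) :
    Fintype.card (Idx a b s) = (2 ^ (s + 1) - 1) * (a + b) + a := by
  have h : Fintype.card {g : Fin (s + 1) → ZMod 2 // g ≠ 0} = 2 ^ (s + 1) - 1 := by
    rw [Fintype.card_subtype, Finset.filter_ne', Finset.card_erase_of_mem (Finset.mem_univ _),
      Finset.card_univ]
    simp [ZMod.card]
  rw [Fintype.card_sum, Fintype.card_prod, Fintype.card_prod, h]
  simp only [Fintype.card_fin, Fintype.card_pi, ZMod.card, Finset.prod_const, Finset.card_univ]
  obtain ⟨N, hN⟩ := Nat.exists_eq_add_of_le (Nat.one_le_two_pow (n := s + 1))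
  rw [hN, Nat.add_sub_cancel_left]
  ring

/-- the code map -/
def code (a b s : ℕ) : ((Fin a → ZMod 2) × (Fin (s + 1) → ZMod 2)) →ₗ[ZMod 2]
    (Idx a b s → ZMod 2) where
  toFun x := Sum.elim (fun q => x.1 q.1 + dotProduct q.2 x.2) (fun q => dotProduct q.2.1 x.2)
  map_add' x y := by
    funext i
    rcases i with q | q
    · simp only [Sum.elim_inl, Prod.fst_add, Prod.snd_add, Pi.add_apply, dotProduct_add]
      ring
    · simp only [Sum.elim_inr, Prod.snd_add, Pi.add_apply, dotProduct_add]
  map_smul' c x := by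
    funext i
    rcases i with q | q
    · simp only [Sum.elim_inl, Prod.smul_fst, Prod.smul_snd, Pi.smul_apply, dotProduct_smul,
        smul_eq_mul, RingHom.id_apply]
      ring
    · simp only [Sum.elim_inr, Prod.smul_snd, Pi.smul_apply, dotProduct_smul,
        smul_eq_mul, RingHom.id_apply]

theorem code_weight (a b s : ℕ) (x : (Fin a → ZMod 2) × (Fin (s + 1) → ZMod 2)) (hx : x.2 ≠ 0) :
    hammingNorm (code a b s x) = 2 ^ s * (a + b) := by
  have h1 : hammingNorm (code a b s x) = ∑ i : Idx a b s, if code a b s x i ≠ 0 then 1 else 0 := by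
    unfold hammingNorm
    rw [Finset.card_filter]
  rw [h1, Fintype.sum_sum_type, Fintype.sum_prod_type, Fintype.sum_prod_type]
  have h2 : ∀ j : Fin a, ∑ g : Fin (s + 1) → ZMod 2,
      (if code a b s x (Sum.inl (j, g)) ≠ 0 then 1 else 0) = 2 ^ s := by
    intro j
    exact cnt s x.2 hx (x.1 j)
  have h3 : ∀ j : Fin b, ∑ g : {g : Fin (s + 1) → ZMod 2 // g ≠ 0},
      (if code a b s x (Sum.inr (j, g)) ≠ 0 then 1 else 0) = 2 ^ s := by
    intro j
    have h4 : ∑ g : {g : Fin (s + 1) → ZMod 2 // g ≠ 0},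
        (if code a b s x (Sum.inr (j, g)) ≠ 0 then 1 else 0)
        = ∑ g ∈ univ.filter (fun g : Fin (s + 1) → ZMod 2 => g ≠ 0),
          (if 0 + dotProduct g x.2 ≠ 0 then 1 else 0) := by
      rw [Finset.sum_subtype (univ.filter (fun g : Fin (s + 1) → ZMod 2 => g ≠ 0))
        (p := fun g => g ≠ 0) (by simp)]
      apply Finset.sum_congr rfl
      intro g _
      rw [zero_add]
      rfl
    rw [h4, Finset.sum_filter_of_ne]
    · exact cnt s x.2 hx 0
    · intro g _ hg
      rintro rfl
      apply hg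
      simp
  rw [Finset.sum_congr rfl (fun j _ => h2 j), Finset.sum_congr rfl (fun j _ => h3 j)]
  simp only [Finset.sum_const, Finset.card_univ, Fintype.card_fin, smul_eq_mul]
  ring

theorem code_inj (a b s : ℕ) (ha : 1 ≤ a) : Function.Injective (code a b s) := by
  rw [← LinearMap.ker_eq_bot, LinearMap.ker_eq_bot']
  intro x hx
  have h1 : ∀ j g, x.1 j + dotProduct g x.2 = 0 := by
    intro j g
    exact congrFun hx (Sum.inl (j, g))
  have h2 : x.1 = 0 := by
    funext j
    have := h1 j 0
    rwa [zero_dotProduct, add_zero] at this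
  have h3 : x.2 = 0 := by
    funext i
    have := h1 ⟨0, ha⟩ (Pi.single i 1)
    rw [h2, single_dotProduct, one_mul] at this
    simpa using this
  exact Prod.ext h2 h3

theorem extend_weight {ι : Type*} [Fintype ι] [DecidableEq ι] {n : ℕ} (e : ι ↪ Fin n)
    (f : ι → ZMod 2) :
    hammingNorm (Function.ExtendByZero.linearMap (ZMod 2) e f) = hammingNorm f := by
  unfold hammingNorm
  rw [← Finset.card_map e]
  congr 1
  ext i
  simp only [Finset.mem_filter, Finset.mem_univ, true_and, Finset.mem_map]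
  constructor
  · intro h
    by_cases hi : ∃ j, e j = i
    · obtain ⟨j, rfl⟩ := hi
      refine ⟨j, ?_, rfl⟩
      rw [Function.ExtendByZero.linearMap_apply, e.injective.extend_apply] at h
      exact h
    · rw [Function.ExtendByZero.linearMap_apply, Function.extend_apply' _ _ _ hi] at h
      exact absurd rfl h
  · rintro ⟨j, hj, rfl⟩
    rw [Function.ExtendByZero.linearMap_apply, e.injective.extend_apply]
    exact hj

theorem extend_inj {ι : Type*} {n : ℕ} (e : ι ↪ Fin n) :
    Function.Injective (Function.ExtendByZero.linearMap (ZMod 2) e : (ι → ZMod 2) → _) := by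
  intro f g h
  funext j
  have := congrFun h (e j)
  rwa [Function.ExtendByZero.linearMap_apply, Function.ExtendByZero.linearMap_apply,
    e.injective.extend_apply, e.injective.extend_apply] at this

theorem construction (n s m a : ℕ) (ha : 1 ≤ a) (ham : a ≤ m)
    (hn : (2 ^ (s + 1) - 1) * m + a ≤ n) :
    ∃ U : Submodule (ZMod 2) (Fin n → ZMod 2), Module.finrank (ZMod 2) U = s + 1 + a ∧
      (Z U (2 ^ s * m)).card ≤ 2 ^ a := by
  classical
  obtain ⟨b, rfl⟩ := Nat.exists_eq_add_of_le ham
  have hcard : Fintype.card (Idx a b s) ≤ Fintype.card (Fin n) := by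
    rw [card_Idx, Fintype.card_fin]; exact hn
  obtain ⟨e⟩ := Function.Embedding.nonempty_of_card_le hcard
  set Ψ := (Function.ExtendByZero.linearMap (ZMod 2) e).comp (code a b s) with hΨ
  have hinj : Function.Injective Ψ := by
    rw [hΨ, LinearMap.coe_comp]
    exact (extend_inj e).comp (code_inj a b s ha)
  refine ⟨LinearMap.range Ψ, ?_, ?_⟩
  · rw [LinearMap.finrank_range_of_inj hinj, Module.finrank_prod, Module.finrank_pi,
      Module.finrank_pi, Fintype.card_fin, Fintype.card_fin]
    omega
  · have hsub : Z (LinearMap.range Ψ) (2 ^ s * (a + b))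
        ⊆ univ.image (fun α : Fin a → ZMod 2 => Ψ (α, 0)) := by
      intro z hz
      rw [mem_Z, LinearMap.mem_range] at hz
      obtain ⟨⟨x, rfl⟩, hx⟩ := hz
      rw [Finset.mem_image]
      refine ⟨x.1, Finset.mem_univ _, ?_⟩
      have h2 : x.2 = 0 := by
        by_contra hne
        apply hx
        rw [hΨ, LinearMap.comp_apply, extend_weight, code_weight a b s x hne]
      congr 1
      exact Prod.ext rfl h2.symm
    refine (Finset.card_le_card hsub).trans (Finset.card_image_le.trans ?_)
    rw [Finset.card_univ]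
    simp [ZMod.card]

theorem count_eq {n : ℕ} (U : Submodule (ZMod 2) (Fin n → ZMod 2)) (w : ℕ) :
    {x : Fin n → ZMod 2 | x ∈ U ∧ hammingNorm x = w}.ncard + (Z U w).card
      = 2 ^ Module.finrank (ZMod 2) U := by
  classical
  have h1 : {x : Fin n → ZMod 2 | x ∈ U ∧ hammingNorm x = w}
      = (((elts U).filter (fun v => hammingNorm v = w) : Finset (Fin n → ZMod 2)) :
        Set (Fin n → ZMod 2)) := by
    ext x
    simp [mem_elts]
  rw [h1, Set.ncard_coe_finset, ← card_elts, Z]
  exact Finset.card_filter_add_card_filter_not _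

end R53.ConstWt
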