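import Pool.Agent.R53.ConstWtB

/-! Chromatic number of distance powers of the hypercube in the Plotkin range. -/

namespace R53.CubePow

open Finset

/-- the distance power `Q_n^d` -/
def Q (n d : ℕ) : SimpleGraph (Finset (Fin n)) where
  Adj x y := x ≠ y ∧ (symmDiff x y).card ≤ d
  symm := ⟨fun x y h => ⟨h.1.symm, by rw [symmDiff_comm]; exact h.2⟩⟩
  loopless := ⟨fun x h => h.1 rfl⟩

theorem split_le (s a b : ℕ) (h : a + b = 2 ^ (s + 1) + 1) : a * b ≤ 2 ^ s * (2 ^ s + 1) := by
  have h2 : 2 ^ (s + 1) = 2 * 2 ^ s := by ring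
  rw [h2] at h
  set N := 2 ^ s with hN
  rcases Nat.lt_or_ge a (N + 1) with ha | ha
  · -- a ≤ N, b ≥ N + 1
    obtain ⟨e, he⟩ := Nat.exists_eq_add_of_le (Nat.lt_succ_iff.mp ha)
    have hb : b = N + 1 + e := by omega
    rw [hb]
    have : N = a + e := he
    rw [this]
    nlinarith [Nat.zero_le (e * e), Nat.zero_le e]
  · obtain ⟨e, he⟩ := Nat.exists_eq_add_of_le ha
    have hb : N = b + e := by omega
    rw [he]
    rw [hb]
    nlinarith [Nat.zero_le (e * e), Nat.zero_le e]

/-- averaging: number of disagreements -/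
theorem disagreements {α ι : Type*} [DecidableEq α] [Fintype ι] (s : ℕ) (S : Finset α)
    (hS : S.card = 2 ^ (s + 1) + 1) (f : ι → α → Bool) :
    ∑ x ∈ S, ∑ y ∈ S, (univ.filter (fun j => f j x ≠ f j y)).card
      ≤ Fintype.card ι * (2 * (2 ^ s * (2 ^ s + 1))) := by
  have h1 : ∑ x ∈ S, ∑ y ∈ S, (univ.filter (fun j => f j x ≠ f j y)).card
      = ∑ j : ι, ∑ x ∈ S, ∑ y ∈ S, (if f j x ≠ f j y then 1 else 0) := by
    simp only [Finset.card_filter]
    have h0 : ∀ x ∈ S, ∑ y ∈ S, ∑ j : ι, (if f j x ≠ f j y then 1 else 0)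
        = ∑ j : ι, ∑ y ∈ S, (if f j x ≠ f j y then 1 else 0) := fun x _ => Finset.sum_comm
    rw [Finset.sum_congr rfl h0, Finset.sum_comm]
  rw [h1]
  have h2 : ∀ j : ι, ∑ x ∈ S, ∑ y ∈ S, (if f j x ≠ f j y then 1 else 0)
      ≤ 2 * (2 ^ s * (2 ^ s + 1)) := by
    intro j
    set A := S.filter (fun x => f j x = true) with hA
    set B := S.filter (fun x => ¬ (f j x = true)) with hB
    have hAB : A.card + B.card = 2 ^ (s + 1) + 1 := by
      rw [← hS]; exact Finset.card_filter_add_card_filter_not _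
    have h3 : ∀ x, ∑ y ∈ S, (if f j x ≠ f j y then 1 else 0)
        = if f j x = true then B.card else A.card := by
      intro x
      rw [← Finset.card_filter]
      by_cases hx : f j x = true
      · rw [if_pos hx, hB]
        congr 1
        ext y
        simp only [Finset.mem_filter, hx]
        constructor
        · rintro ⟨h, h'⟩; exact ⟨h, fun h'' => h' h''.symm⟩
        · rintro ⟨h, h'⟩; exact ⟨h, fun h'' => h' h''.symm⟩
      · rw [if_neg hx, hA]
        congr 1
        ext y
        simp only [Finset.mem_filter]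
        have hx' : f j x = false := by simpa using hx
        rw [hx']
        constructor
        · rintro ⟨h, h'⟩; exact ⟨h, by cases hy : f j y <;> simp_all⟩
        · rintro ⟨h, h'⟩; exact ⟨h, by simp [h']⟩
    rw [Finset.sum_congr rfl (fun x _ => h3 x), Finset.sum_ite, Finset.sum_const,
      Finset.sum_const, smul_eq_mul, smul_eq_mul, ← hA, ← hB]
    have := split_le s A.card B.card hAB
    nlinarith
  calc ∑ j : ι, ∑ x ∈ S, ∑ y ∈ S, (if f j x ≠ f j y then 1 else 0)
      ≤ ∑ j : ι, 2 * (2 ^ s * (2 ^ s + 1)) := Finset.sum_le_sum (fun j _ => h2 j)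
    _ = _ := by rw [Finset.sum_const, Finset.card_univ, smul_eq_mul]


theorem card_symmDiff_eq {n : ℕ} (x y : Finset (Fin n)) :
    (symmDiff x y).card = (univ.filter (fun j : Fin n => decide (j ∈ x) ≠ decide (j ∈ y))).card := by
  congr 1
  ext j
  simp only [Finset.mem_symmDiff, Finset.mem_filter, Finset.mem_univ, true_and]
  by_cases h1 : j ∈ x <;> by_cases h2 : j ∈ y <;> simp [h1, h2]

theorem card_symmDiff_parity {n : ℕ} (x y : Finset (Fin n)) :
    (symmDiff x y).card + 2 * (x ∩ y).card = x.card + y.card := by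
  have h1 : (symmDiff x y).card = (x \ y).card + (y \ x).card := by
    rw [← Finset.card_union_of_disjoint]
    · rfl
    · rw [Finset.disjoint_left]
      intro a ha hb
      rw [Finset.mem_sdiff] at ha hb
      exact ha.2 hb.1
  have h2 := Finset.card_sdiff_add_card_inter x y
  have h3 := Finset.card_sdiff_add_card_inter y x
  rw [Finset.inter_comm y x] at h3
  omega

/-- pairwise distances in a set of `2 ^ (s+1) + 1` words -/
theorem plotkin {n : ℕ} (s d : ℕ) (S : Finset (Finset (Fin n))) (hS : S.card = 2 ^ (s + 1) + 1)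
    (hd : ∀ x ∈ S, ∀ y ∈ S, x ≠ y → d + 1 ≤ (symmDiff x y).card) :
    (2 ^ (s + 1) + 1) * (d + 1) ≤ (2 ^ s + 1) * n := by
  classical
  have h1 := disagreements s S hS (fun (j : Fin n) (x : Finset (Fin n)) => decide (j ∈ x))
  have h2 : ∀ x ∈ S, 2 ^ (s + 1) * (d + 1)
      ≤ ∑ y ∈ S, (univ.filter (fun j : Fin n => decide (j ∈ x) ≠ decide (j ∈ y))).card := by
    intro x hx
    have h3 : ∑ y ∈ S.erase x, (d + 1)
        ≤ ∑ y ∈ S.erase x, (univ.filter (fun j : Fin n => decide (j ∈ x) ≠ decide (j ∈ y))).card := by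
      apply Finset.sum_le_sum
      intro y hy
      rw [← card_symmDiff_eq]
      rw [Finset.mem_erase] at hy
      exact hd x hx y hy.2 (fun h => hy.1 h.symm)
    rw [Finset.sum_const, smul_eq_mul, Finset.card_erase_of_mem hx, hS, Nat.add_sub_cancel] at h3
    exact h3.trans (Finset.sum_le_sum_of_subset (Finset.erase_subset _ _))
  have h4 := Finset.sum_le_sum h2
  rw [Finset.sum_const, smul_eq_mul, hS] at h4
  have h5 := h4.trans h1
  rw [Fintype.card_fin] at h5
  have h6 : 2 ^ (s + 1) * ((2 ^ (s + 1) + 1) * (d + 1)) ≤ 2 ^ (s + 1) * ((2 ^ s + 1) * n) := by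
    calc 2 ^ (s + 1) * ((2 ^ (s + 1) + 1) * (d + 1))
        = (2 ^ (s + 1) + 1) * (2 ^ (s + 1) * (d + 1)) := by ring
      _ ≤ n * (2 * (2 ^ s * (2 ^ s + 1))) := h5
      _ = _ := by ring
  exact Nat.le_of_mul_le_mul_left h6 (by positivity)

/-- the same with a parity coordinate, for even `d` -/
theorem plotkin_even {n : ℕ} (s d : ℕ) (hev : Even d) (S : Finset (Finset (Fin n)))
    (hS : S.card = 2 ^ (s + 1) + 1)
    (hd : ∀ x ∈ S, ∀ y ∈ S, x ≠ y → d + 1 ≤ (symmDiff x y).card) :
    (2 ^ (s + 1) + 1) * (d + 2) ≤ (2 ^ s + 1) * (n + 1) := by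
  classical
  set f : Option (Fin n) → Finset (Fin n) → Bool := fun j x =>
    match j with
    | some j => decide (j ∈ x)
    | none => decide (x.card % 2 = 1) with hf
  have h1 := disagreements s S hS f
  have hcount : ∀ x y : Finset (Fin n), (univ.filter (fun j => f j x ≠ f j y)).card
      = (symmDiff x y).card + (if x.card % 2 = y.card % 2 then 0 else 1) := by
    intro x y
    rw [Finset.card_filter, Fintype.sum_option, card_symmDiff_eq, Finset.card_filter, add_comm]
    congr 1
    simp only [hf]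
    rcases Nat.mod_two_eq_zero_or_one x.card with h | h <;>
      rcases Nat.mod_two_eq_zero_or_one y.card with h' | h' <;> simp [h, h']
  have h2 : ∀ x ∈ S, 2 ^ (s + 1) * (d + 2) ≤ ∑ y ∈ S, (univ.filter (fun j => f j x ≠ f j y)).card := by
    intro x hx
    have h3 : ∑ y ∈ S.erase x, (d + 2)
        ≤ ∑ y ∈ S.erase x, (univ.filter (fun j => f j x ≠ f j y)).card := by
      apply Finset.sum_le_sum
      intro y hy
      rw [hcount]
      rw [Finset.mem_erase] at hy
      have h4 := hd x hx y hy.2 (fun h => hy.1 h.symm)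
      have h5 := card_symmDiff_parity x y
      obtain ⟨e, he⟩ := hev
      split_ifs with h6 <;> omega
    rw [Finset.sum_const, smul_eq_mul, Finset.card_erase_of_mem hx, hS, Nat.add_sub_cancel] at h3
    exact h3.trans (Finset.sum_le_sum_of_subset (Finset.erase_subset _ _))
  have h4 := Finset.sum_le_sum h2
  rw [Finset.sum_const, smul_eq_mul, hS] at h4
  have h5 := h4.trans h1
  rw [Fintype.card_option, Fintype.card_fin] at h5
  have h6 : 2 ^ (s + 1) * ((2 ^ (s + 1) + 1) * (d + 2)) ≤ 2 ^ (s + 1) * ((2 ^ s + 1) * (n + 1)) := by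
    calc 2 ^ (s + 1) * ((2 ^ (s + 1) + 1) * (d + 2))
        = (2 ^ (s + 1) + 1) * (2 ^ (s + 1) * (d + 2)) := by ring
      _ ≤ (n + 1) * (2 * (2 ^ s * (2 ^ s + 1))) := h5
      _ = _ := by ring
  exact Nat.le_of_mul_le_mul_left h6 (by positivity)

/-- lower bound for the number of colours -/
theorem lower {n : ℕ} (s d m : ℕ) (hk : s + 1 ≤ n)
    (h : (2 ^ s + 1) * n < (2 ^ (s + 1) + 1) * (d + 1) ∨
      (Even d ∧ (2 ^ s + 1) * (n + 1) < (2 ^ (s + 1) + 1) * (d + 2)))
    (c : (Q n d).Coloring (Fin m)) : 2 ^ (n - (s + 1)) ≤ m := by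
  classical
  by_contra hcon
  push Not at hcon
  have h1 : (univ : Finset (Fin m)).card * 2 ^ (s + 1) < (univ : Finset (Finset (Fin n))).card := by
    rw [Finset.card_univ, Fintype.card_fin, Finset.card_univ, Fintype.card_finset, Fintype.card_fin]
    calc m * 2 ^ (s + 1) < 2 ^ (n - (s + 1)) * 2 ^ (s + 1) :=
          Nat.mul_lt_mul_of_pos_right hcon (by positivity)
      _ = 2 ^ n := by rw [← pow_add]; congr 1; omega
  obtain ⟨y, -, hy⟩ := Finset.exists_lt_card_fiber_of_mul_lt_card_of_maps_to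
    (f := fun x => c x) (fun a _ => Finset.mem_univ _) h1
  obtain ⟨S, hSsub, hScard⟩ := Finset.exists_subset_card_eq (Nat.succ_le_of_lt hy)
  have hd : ∀ x ∈ S, ∀ z ∈ S, x ≠ z → d + 1 ≤ (symmDiff x z).card := by
    intro x hx z hz hne
    by_contra hlt
    push Not at hlt
    have hadj : (Q n d).Adj x z := ⟨hne, by omega⟩
    apply c.valid hadj
    rw [(Finset.mem_filter.mp (hSsub hx)).2, (Finset.mem_filter.mp (hSsub hz)).2]
  rcases h with h | ⟨hev, h⟩
  · have := plotkin s d S hScard hd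
    omega
  · have := plotkin_even s d hev S hScard hd
    omega

end R53.CubePow
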