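import Pool.Agent.R53.CubePow

namespace R53.CubePow

open Finset R53.ConstWt

theorem restrict_weight {n p : ℕ} (v : Fin (n + p) → ZMod 2) :
    hammingNorm v ≤ hammingNorm (fun i : Fin n => v (Fin.castAdd p i)) + p := by
  unfold hammingNorm
  rw [Finset.card_filter, Finset.card_filter, Fin.sum_univ_add]
  apply Nat.add_le_add_left
  calc ∑ i : Fin p, (if v (Fin.natAdd n i) ≠ 0 then 1 else 0) ≤ ∑ _i : Fin p, 1 := by
        apply Finset.sum_le_sum
        intro i _
        split_ifs <;> omega
    _ = p := by simp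

/-- a linear code of dimension `s + 1` and length `n` with minimum distance at least `d + 1` -/
theorem exists_code (n s d p b : ℕ) (h1 : b * (2 ^ (s + 1) - 1) ≤ n + p)
    (h2 : d + 1 + p ≤ 2 ^ s * b) :
    ∃ C : Submodule (ZMod 2) (Fin n → ZMod 2), Module.finrank (ZMod 2) C = s + 1 ∧
      ∀ v ∈ C, v ≠ 0 → d + 1 ≤ hammingNorm v := by
  classical
  have hcard : Fintype.card (Idx 0 b s) ≤ Fintype.card (Fin (n + p)) := by
    rw [card_Idx, Fintype.card_fin, zero_add, add_zero, mul_comm]
    exact h1
  obtain ⟨e⟩ := Function.Embedding.nonempty_of_card_le hcard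
  set Ψ : ((Fin 0 → ZMod 2) × (Fin (s + 1) → ZMod 2)) →ₗ[ZMod 2] (Fin n → ZMod 2) :=
    (LinearMap.funLeft (ZMod 2) (ZMod 2) (Fin.castAdd p)).comp
      ((Function.ExtendByZero.linearMap (ZMod 2) e).comp (code 0 b s)) with hΨ
  have hwt : ∀ x, x ≠ 0 → d + 1 ≤ hammingNorm (Ψ x) := by
    intro x hx
    have hx2 : x.2 ≠ 0 := by
      intro h
      apply hx
      exact Prod.ext (Subsingleton.elim _ _) h
    have h3 := code_weight 0 b s x hx2
    have h4 := extend_weight e (code 0 b s x)
    have h5 := restrict_weight (Function.ExtendByZero.linearMap (ZMod 2) e (code 0 b s x))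
    rw [h4, h3, zero_add] at h5
    have h6 : Ψ x = fun i : Fin n =>
        Function.ExtendByZero.linearMap (ZMod 2) e (code 0 b s x) (Fin.castAdd p i) := rfl
    rw [h6]
    omega
  have hinj : Function.Injective Ψ := by
    rw [← LinearMap.ker_eq_bot, LinearMap.ker_eq_bot']
    intro x hx
    by_contra hne
    have := hwt x hne
    rw [hx, hammingNorm_zero] at this
    omega
  refine ⟨LinearMap.range Ψ, ?_, ?_⟩
  · rw [LinearMap.finrank_range_of_inj hinj, Module.finrank_prod, Module.finrank_pi,
      Module.finrank_pi, Fintype.card_fin, Fintype.card_fin, zero_add]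
  · rintro v ⟨x, rfl⟩ hv
    apply hwt
    rintro rfl
    exact hv (map_zero _)

/-- indicator vector -/
def ind {n : ℕ} (x : Finset (Fin n)) : Fin n → ZMod 2 := fun i => if i ∈ x then 1 else 0

theorem ind_sub {n : ℕ} (x y : Finset (Fin n)) (i : Fin n) :
    (ind x - ind y) i ≠ 0 ↔ i ∈ symmDiff x y := by
  rw [Finset.mem_symmDiff]
  simp only [ind, Pi.sub_apply]
  by_cases h1 : i ∈ x <;> by_cases h2 : i ∈ y <;> simp [h1, h2]

theorem upper (n s d p b : ℕ) (h1 : b * (2 ^ (s + 1) - 1) ≤ n + p)
    (h2 : d + 1 + p ≤ 2 ^ s * b) : (Q n d).Colorable (2 ^ (n - (s + 1))) := by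
  classical
  obtain ⟨C, hC, hw⟩ := exists_code n s d p b h1 h2
  let c : (Q n d).Coloring ((Fin n → ZMod 2) ⧸ C) := SimpleGraph.Coloring.mk
    (fun x => Submodule.Quotient.mk (ind x)) (by
      intro x y hadj heq
      rw [Submodule.Quotient.eq] at heq
      have hne : ind x - ind y ≠ 0 := by
        intro h0
        apply hadj.1
        ext i
        have := ind_sub x y i
        rw [h0, Finset.mem_symmDiff] at this
        simp only [Pi.zero_apply, ne_eq, not_true_eq_false, false_iff] at this
        tauto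
      have h3 := hw _ heq hne
      have h4 : hammingNorm (ind x - ind y) = (symmDiff x y).card := by
        unfold hammingNorm
        congr 1
        ext i
        rw [Finset.mem_filter]
        constructor
        · rintro ⟨_, h⟩; exact (ind_sub x y i).mp h
        · intro h; exact ⟨Finset.mem_univ _, (ind_sub x y i).mpr h⟩
      rw [h4] at h3
      have := hadj.2
      omega)
  have hfin : Fintype ((Fin n → ZMod 2) ⧸ C) := Fintype.ofFinite _
  have h5 := c.colorable
  have h6 : Fintype.card ((Fin n → ZMod 2) ⧸ C) = 2 ^ (n - (s + 1)) := by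
    rw [Module.card_eq_pow_finrank (K := ZMod 2), ZMod.card]
    congr 1
    have := Submodule.finrank_quotient_add_finrank C
    rw [hC, Module.finrank_pi, Fintype.card_fin] at this
    omega
  rw [h6] at h5
  exact h5

end R53.CubePow
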