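import Mathlib

namespace Pool.Agent.R53.OddFree

universe u
variable {V : Type u}

/-- directed walks of prescribed length inside a set -/
inductive WalkIn (A : V → V → Prop) (S : Set V) : ℕ → V → V → Prop
  | nil {x : V} (hx : x ∈ S) : WalkIn A S 0 x x
  | cons {n : ℕ} {x y z : V} (hx : x ∈ S) (h : A x y) (w : WalkIn A S n y z) :
      WalkIn A S (n + 1) x z

namespace WalkIn
variable {A : V → V → Prop} {S T : Set V} {n m : ℕ} {x y z : V}

theorem left_mem (w : WalkIn A S n x y) : x ∈ S := by cases w <;> assumption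

theorem right_mem (w : WalkIn A S n x y) : y ∈ S := by
  induction w with
  | nil hx => exact hx
  | cons hx h w ih => exact ih

theorem mono (hST : S ⊆ T) (w : WalkIn A S n x y) : WalkIn A T n x y := by
  induction w with
  | nil hx => exact .nil (hST hx)
  | cons hx h w ih => exact .cons (hST hx) h ih

theorem append (w₁ : WalkIn A S n x y) (w₂ : WalkIn A S m y z) : WalkIn A S (n + m) x z := by
  induction w₁ with
  | nil hx => simpa using w₂
  | cons hx h w ih =>
    have h1 := WalkIn.cons hx h (ih w₂)
    rw [Nat.add_right_comm] at h1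
    exact h1

theorem reverse (w : WalkIn A S n x y) : WalkIn (flip A) S n y x := by
  induction w with
  | nil hx => exact .nil hx
  | cons hx h w ih =>
    exact ih.append (.cons (A := flip A) w.left_mem h (.nil hx))

theorem avoid {a : V} (hno : ∀ y ∈ S, ¬ A a y) (w : WalkIn A S n x z) (hz : z ≠ a) :
    WalkIn A (S \ {a}) n x z := by
  induction w with
  | nil hx => exact .nil ⟨hx, hz⟩
  | cons hx h w ih =>
    refine .cons ⟨hx, ?_⟩ h (ih hz)
    rintro rfl
    exact hno _ w.left_mem h

end WalkIn

/-- no closed walk of odd length inside `S` -/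
def OddFree (A : V → V → Prop) (S : Set V) : Prop := ∀ n x, Odd n → ¬ WalkIn A S n x x

theorem OddFree.mono {A : V → V → Prop} {S T : Set V} (h : OddFree A T) (hST : S ⊆ T) :
    OddFree A S := fun n x hn w => h n x hn (w.mono hST)

theorem OddFree.flip {A : V → V → Prop} {S : Set V} (h : OddFree A S) :
    OddFree (flip A) S := fun n x hn w => h n x hn (by simpa using w.reverse)

theorem oddFree_of_no_out {A : V → V → Prop} {S : Set V} {a : V}
    (h : OddFree A (S \ {a})) (hno : ∀ y ∈ S, ¬ A a y) : OddFree A S := by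
  intro n x hn w
  by_cases hx : x = a
  · subst hx
    cases w with
    | nil hx => simp at hn
    | cons hx h1 w1 => exact hno _ w1.left_mem h1
  · exact h n x hn (w.avoid hno hx)

theorem oddFree_of_no_in {A : V → V → Prop} {S : Set V} {a : V}
    (h : OddFree A (S \ {a})) (hno : ∀ y ∈ S, ¬ A y a) : OddFree A S := by
  have h1 : OddFree (_root_.flip A) S := oddFree_of_no_out h.flip hno
  exact h1.flip

theorem oddFree_of_two_cycle {A : V → V → Prop} {U : Set V} {a b : V} (hab : a ≠ b)
    (hoa : ∀ y ∈ U, A a y → y = b) (hob : ∀ y ∈ U, A b y → y = a)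
    (hia : ∀ y ∈ U, A y a → y = b) (hib : ∀ y ∈ U, A y b → y = a)
    (h : OddFree A (U \ {a})) : OddFree A U := by
  have key : ∀ n x z, WalkIn A U n x z → (x = a ∨ x = b) →
      ((z = x ∧ Even n) ∨ (z ≠ x ∧ (z = a ∨ z = b) ∧ Odd n)) := by
    intro n x z w
    induction w with
    | nil hx => intro _; left; simp
    | @cons n x y z hx hxy w ih =>
      intro hx'
      rcases hx' with rfl | rfl
      · have hy := hoa _ w.left_mem hxy
        subst hy
        rcases ih (Or.inr rfl) with ⟨rfl, he⟩ | ⟨hz, hz2, ho⟩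
        · right; exact ⟨hab.symm, Or.inr rfl, he.add_one⟩
        · rcases hz2 with rfl | rfl
          · left; exact ⟨rfl, ho.add_one⟩
          · exact absurd rfl hz
      · have hy := hob _ w.left_mem hxy
        subst hy
        rcases ih (Or.inl rfl) with ⟨rfl, he⟩ | ⟨hz, hz2, ho⟩
        · right; exact ⟨hab, Or.inl rfl, he.add_one⟩
        · rcases hz2 with rfl | rfl
          · exact absurd rfl hz
          · left; exact ⟨rfl, ho.add_one⟩
  have key2 : ∀ n x z, WalkIn A U n x z → x ≠ a → x ≠ b → WalkIn A (U \ {a}) n x z := by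
    intro n x z w
    induction w with
    | nil hx => intro h1 _; exact .nil ⟨hx, h1⟩
    | @cons n x y z hx hxy w ih =>
      intro h1 h2
      refine .cons ⟨hx, h1⟩ hxy (ih ?_ ?_)
      · rintro rfl; exact h2 (hia _ hx hxy)
      · rintro rfl; exact h1 (hib _ hx hxy)
  intro n x hn w
  by_cases hxa : x = a
  · rcases key n x x w (Or.inl hxa) with ⟨_, he⟩ | ⟨hz, _⟩
    · exact (Nat.not_even_iff_odd.mpr hn) he
    · exact hz rfl
  · by_cases hxb : x = b
    · rcases key n x x w (Or.inr hxb) with ⟨_, he⟩ | ⟨hz, _⟩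
      · exact (Nat.not_even_iff_odd.mpr hn) he
      · exact hz rfl
    · exact h n x hn (key2 n x x w hxa hxb)

end Pool.Agent.R53.OddFree
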