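import Pool.Agent.R53.OddSeq

namespace Pool.Agent.R53.OddFree

universe u
variable {V : Type u} [DecidableEq V]

omit [DecidableEq V] in
theorem Hole.congr {N : V → Finset V} {S : Finset V} {d d' : V → Fin 3} {a : V}
    (h : Hole N S d a) (hd : ∀ x, x ≠ a → d' x = d x) : Hole N S d' a := by
  refine ⟨h.1, fun j => (h.2 j).mono ?_⟩
  rintro x ⟨h1, h2, h3⟩
  rw [hd x h3] at h2
  exact ⟨h1, h2, h3⟩

omit [DecidableEq V] in
theorem three_le_card {T : Finset V} (d : V → Fin 3) (hex : ∀ i, ∃ y ∈ T, d y = i) :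
    3 ≤ T.card := by
  classical
  have himg : T.image d = Finset.univ := by
    ext i
    simp only [Finset.mem_image, Finset.mem_univ, iff_true]
    exact hex i
  have h1 : (T.image d).card = 3 := by rw [himg]; simp
  have h2 := Finset.card_image_le (s := T) (f := d)
  omega

/-- Every finite digraph with all out-degrees at most three can be partitioned into three sets
without odd closed directed walks. -/
theorem exists_partition [Finite V] (N : V → Finset V) (hirr : ∀ x, x ∉ N x)
    (h3 : ∀ x, (N x).card ≤ 3) (S : Finset V) :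
    ∃ c : V → Fin 3, ∀ i, OddFree (arc N) {x | x ∈ S ∧ c x = i} := by
  induction S using Finset.strongInduction with
  | H S ih =>
  by_contra hcon
  have hNP : NP N S := by
    intro d
    by_contra h
    push Not at h
    exact hcon ⟨d, h⟩
  have hall : ∀ v ∈ S, ∃ d, Hole N S d v := by
    intro v hv
    obtain ⟨d, hd⟩ := ih (S.erase v) (Finset.erase_ssubset hv)
    refine ⟨d, hv, fun i => (hd i).mono ?_⟩
    rintro x ⟨h1, h2, h3⟩
    exact ⟨Finset.mem_erase.mpr ⟨h3, h1⟩, h2⟩
  have hin3 : ∀ v ∈ S, 3 ≤ (S.filter (fun x => v ∈ N x)).card := by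
    intro v hv
    obtain ⟨d, hd⟩ := hall v hv
    refine three_le_card d ?_
    intro i
    obtain ⟨y, h1, h2, _, h4⟩ := hd.exists_in hNP hirr i
    exact ⟨y, Finset.mem_filter.mpr ⟨h1, h4⟩, h2⟩
  have hsum : ∑ v ∈ S, (S.filter (fun x => v ∈ N x)).card ≤ ∑ _v ∈ S, 3 := by
    have h1 := Finset.sum_card_bipartiteAbove_eq_sum_card_bipartiteBelow
      (s := S) (t := S) (fun v x => v ∈ N x)
    simp only [Finset.bipartiteAbove, Finset.bipartiteBelow] at h1
    rw [h1]
    refine Finset.sum_le_sum ?_
    intro x _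
    refine le_trans (Finset.card_le_card ?_) (h3 x)
    intro v hv
    exact (Finset.mem_filter.mp hv).2
  have hin : ∀ v ∈ S, (S.filter (fun x => v ∈ N x)).card ≤ 3 := by
    intro v hv
    by_contra hlt
    push Not at hlt
    have : ∑ _v ∈ S, 3 < ∑ v ∈ S, (S.filter (fun x => v ∈ N x)).card :=
      Finset.sum_lt_sum hin3 ⟨v, hv, hlt⟩
    omega
  have hSne : S.Nonempty := by
    rcases S.eq_empty_or_nonempty with h | h
    · exfalso
      obtain ⟨i, hi⟩ := hNP (fun _ => 0)
      apply hi
      intro n x _ w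
      have := w.left_mem
      rw [h] at this
      simp at this
    · exact h
  obtain ⟨v₀, hv₀⟩ := hSne
  obtain ⟨d₀, hd₀⟩ := hall v₀ hv₀
  let State := {p : (V → Fin 3) × V // Hole N S p.1 p.2}
  have hstep : ∀ (i : Fin 3) (p : State), ∃ q : State, q.1.2 ∈ N p.1.2 ∧ q.1.1 p.1.2 = i ∧
      q.1.1 q.1.2 = i ∧ ∀ x, x ≠ p.1.2 → q.1.1 x = p.1.1 x := by
    rintro i ⟨⟨d, a⟩, h⟩
    obtain ⟨y, hy1, hy2, hy3, hy4⟩ := Hole.exists_out hNP hirr h i
    refine ⟨⟨(Function.update d a (d y), y), Hole.step hNP hirr h3 h hy1 hy3 hy4⟩, hy4, ?_, ?_, ?_⟩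
    · simp only [Function.update_self]; exact hy2
    · simp only [Function.update_of_ne hy3]; exact hy2
    · intro x hx
      simp only [Function.update_of_ne hx]
  choose f hf using hstep
  let b : ℕ → Fin 3 := fun t => if Even t then 0 else 1
  let sq : ℕ → State := fun t => Nat.rec ⟨(d₀, v₀), hd₀⟩ (fun t p => f (b t) p) t
  have hsq : ∀ t, sq (t + 1) = f (b t) (sq t) := fun t => rfl
  refine seq_contradiction hNP hirr h3 hin (fun t => (sq (t + 1)).1.1) (fun t => (sq t).1.2) b
    ?_ ?_ ?_ ?_ ?_ ?_ ?_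
  · intro t
    by_cases ht : Even t
    · have : ¬ Even (t + 1) := by
        intro h; exact (Nat.even_add_one.mp h) ht
      simp [b, ht, this]
    · have : Even (t + 1) := Nat.even_add_one.mpr ht
      simp [b, ht, this]
  · intro t
    have h1 := (sq t).2
    exact h1.congr (by rw [hsq]; exact (hf (b t) (sq t)).2.2.2)
  · intro t
    exact (sq (t + 1)).2
  · intro t
    show (sq (t + 1)).1.1 (sq t).1.2 = b t
    rw [hsq]; exact (hf (b t) (sq t)).2.1
  · intro t
    show (sq (t + 1)).1.1 (sq (t + 1)).1.2 = b t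
    rw [hsq]; exact (hf (b t) (sq t)).2.2.1
  · intro t
    show (sq (t + 1)).1.2 ∈ N (sq t).1.2
    rw [hsq]; exact (hf (b t) (sq t)).1
  · intro t x hx
    show (sq (t + 1 + 1)).1.1 x = (sq (t + 1)).1.1 x
    rw [hsq (t + 1)]; exact (hf (b (t + 1)) (sq (t + 1))).2.2.2 x hx

/-- extension step for weighted majority 2-colourings -/
theorem extend_two (N : V → Finset V) (T C : Finset V) (hCT : C ⊆ T)
    (γ : Bool → V → ℕ) (d : V → ℕ)
    (hd : ∀ v ∈ T, γ true v + γ false v + (N v ∩ T).card ≤ d v)
    (g₀ : V → Bool)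
    (hC : ∀ x ∈ C, 2 * (γ (g₀ x) x + ((N x ∩ T).filter (fun y => y ∈ C → g₀ y = g₀ x)).card) ≤ d x)
    (ih : ∀ (γ' : Bool → V → ℕ),
      (∀ v ∈ T \ C, γ' true v + γ' false v + (N v ∩ (T \ C)).card ≤ d v) →
      ∃ g : V → Bool, ∀ v ∈ T \ C,
        2 * (γ' (g v) v + ((N v ∩ (T \ C)).filter (fun y => g y = g v)).card) ≤ d v) :
    ∃ g : V → Bool, ∀ v ∈ T,
      2 * (γ (g v) v + ((N v ∩ T).filter (fun y => g y = g v)).card) ≤ d v := by
  obtain ⟨g', hg'⟩ := ih (fun e x => γ e x + ((N x ∩ C).filter (fun y => g₀ y = e)).card) (by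
    intro v hv
    have h1 := hd v (Finset.mem_sdiff.mp hv).1
    have h2 : ((N v ∩ C).filter (fun y => g₀ y = true)).card +
        ((N v ∩ C).filter (fun y => g₀ y = false)).card = (N v ∩ C).card := by
      have := Finset.card_filter_add_card_filter_not (s := N v ∩ C) (fun y => g₀ y = true)
      simpa using this
    have h3 : (N v ∩ C).card + (N v ∩ (T \ C)).card ≤ (N v ∩ T).card := by
      rw [← Finset.card_union_of_disjoint]
      · apply Finset.card_le_card
        intro y hy
        rcases Finset.mem_union.mp hy with h | h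
        · exact Finset.mem_inter.mpr ⟨(Finset.mem_inter.mp h).1, hCT (Finset.mem_inter.mp h).2⟩
        · exact Finset.mem_inter.mpr ⟨(Finset.mem_inter.mp h).1,
            (Finset.mem_sdiff.mp (Finset.mem_inter.mp h).2).1⟩
      · rw [Finset.disjoint_left]
        intro y h1 h2
        exact (Finset.mem_sdiff.mp (Finset.mem_inter.mp h2).2).2 (Finset.mem_inter.mp h1).2
    omega)
  refine ⟨fun y => if y ∈ C then g₀ y else g' y, ?_⟩
  intro v hv
  by_cases hvC : v ∈ C
  · have h1 := hC v hvC
    simp only [hvC, if_true]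
    refine le_trans ?_ h1
    have : ((N v ∩ T).filter (fun y => (if y ∈ C then g₀ y else g' y) = g₀ v)).card ≤
        ((N v ∩ T).filter (fun y => y ∈ C → g₀ y = g₀ v)).card := by
      apply Finset.card_le_card
      intro y hy
      rw [Finset.mem_filter] at hy ⊢
      refine ⟨hy.1, fun hyC => ?_⟩
      simpa [hyC] using hy.2
    omega
  · have hvT : v ∈ T \ C := Finset.mem_sdiff.mpr ⟨hv, hvC⟩
    have h1 := hg' v hvT
    simp only [hvC, if_false]
    have : ((N v ∩ T).filter (fun y => (if y ∈ C then g₀ y else g' y) = g' v)).card ≤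
        ((N v ∩ C).filter (fun y => g₀ y = g' v)).card +
        ((N v ∩ (T \ C)).filter (fun y => g' y = g' v)).card := by
      rw [← Finset.card_union_of_disjoint]
      · apply Finset.card_le_card
        intro y hy
        rw [Finset.mem_filter, Finset.mem_inter] at hy
        rw [Finset.mem_union, Finset.mem_filter, Finset.mem_filter, Finset.mem_inter,
          Finset.mem_inter, Finset.mem_sdiff]
        by_cases hyC : y ∈ C
        · left; exact ⟨⟨hy.1.1, hyC⟩, by simpa [hyC] using hy.2⟩
        · right; exact ⟨⟨hy.1.1, hy.1.2, hyC⟩, by simpa [hyC] using hy.2⟩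
      · rw [Finset.disjoint_left]
        intro y h1 h2
        rw [Finset.mem_filter, Finset.mem_inter] at h1 h2
        exact (Finset.mem_sdiff.mp h2.1.2).2 h1.1.2
    omega

/-- weighted majority 2-colourings of digraphs without odd closed walks -/
theorem majority_two [Finite V] (N : V → Finset V) (d : V → ℕ) (T : Finset V) :
    ∀ (γ : Bool → V → ℕ), OddFree (arc N) {x | x ∈ T} →
    (∀ v ∈ T, γ true v + γ false v + (N v ∩ T).card ≤ d v) →
    ∃ g : V → Bool, ∀ v ∈ T,
      2 * (γ (g v) v + ((N v ∩ T).filter (fun y => g y = g v)).card) ≤ d v := by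
  induction T using Finset.strongInduction with
  | H T ih =>
  intro γ hfree hd
  rcases T.eq_empty_or_nonempty with hT | hT
  · exact ⟨fun _ => true, by intro v hv; rw [hT] at hv; simp at hv⟩
  by_cases hcase : ∃ v ∈ T, ∃ e : Bool, 2 * (γ e v + (N v ∩ T).card) ≤ d v
  · obtain ⟨v, hv, e, he⟩ := hcase
    refine extend_two N T {v} (Finset.singleton_subset_iff.mpr hv) γ d hd (fun _ => e) ?_ ?_
    · intro x hx
      rw [Finset.mem_singleton] at hx
      subst hx
      refine le_trans ?_ he
      have := Finset.card_filter_le (N x ∩ T) (fun y => y ∈ ({x} : Finset V) → e = e)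
      omega
    · intro γ' hγ'
      refine ih (T \ {v}) ?_ γ' (hfree.mono ?_) hγ'
      · exact Finset.sdiff_ssubset (Finset.singleton_subset_iff.mpr hv)
          (Finset.singleton_nonempty v)
      · intro x hx
        exact (Finset.mem_sdiff.mp hx).1
  · push Not at hcase
    have hhalf : ∀ v ∈ T, ∀ e : Bool, 2 * γ e v ≤ d v := by
      intro v hv e
      have h1 := hd v hv
      cases e
      · have h2 := hcase v hv true
        omega
      · have h2 := hcase v hv false
        omega
    classical
    -- reachability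
    let Reach : V → V → Prop := fun x y => ∃ n, WalkIn (arc N) {x | x ∈ T} n x y
    have htrans : ∀ x y z, Reach x y → Reach y z → Reach x z := by
      rintro x y z ⟨n, hn⟩ ⟨m, hm⟩
      exact ⟨n + m, hn.append hm⟩
    obtain ⟨v, hvT, hvmin⟩ := Finset.exists_min_image T
      (fun v => (T.filter (fun y => Reach v y)).card) hT
    set C := T.filter (fun y => Reach v y) with hC
    have hvC : v ∈ C := Finset.mem_filter.mpr ⟨hvT, 0, .nil hvT⟩
    have hback : ∀ y ∈ C, Reach y v := by
      intro y hy
      rw [hC, Finset.mem_filter] at hy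
      have hsub : T.filter (fun z => Reach y z) ⊆ C := by
        intro z hz
        rw [Finset.mem_filter] at hz
        exact Finset.mem_filter.mpr ⟨hz.1, htrans _ _ _ hy.2 hz.2⟩
      have heq := Finset.eq_of_subset_of_card_le hsub (hvmin y hy.1)
      have : v ∈ T.filter (fun z => Reach y z) := by rw [heq]; exact hvC
      exact (Finset.mem_filter.mp this).2
    let g₀ : V → Bool := fun y => decide (∃ n, Even n ∧ WalkIn (arc N) {x | x ∈ T} n v y)
    have hclosed : ∀ y ∈ C, ∀ z ∈ N y, z ∈ T → z ∈ C ∧ g₀ z ≠ g₀ y := by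
      intro y hy z hz hzT
      have hyT : y ∈ T := (Finset.mem_filter.mp hy).1
      have hstep1 : WalkIn (arc N) {x | x ∈ T} 1 y z :=
        .cons (x := y) hyT hz (.nil (x := z) hzT)
      have hzC : z ∈ C := Finset.mem_filter.mpr
        ⟨hzT, htrans _ _ _ (Finset.mem_filter.mp hy).2 ⟨1, hstep1⟩⟩
      refine ⟨hzC, ?_⟩
      by_cases hye : ∃ n, Even n ∧ WalkIn (arc N) {x | x ∈ T} n v y
      · have hzn : ¬ ∃ n, Even n ∧ WalkIn (arc N) {x | x ∈ T} n v z := by
          rintro ⟨m, hm, hmw⟩
          obtain ⟨n, hn, hnw⟩ := hye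
          obtain ⟨l, hl⟩ := hback z hzC
          rcases Nat.even_or_odd l with hl2 | hl2
          · exact hfree (n + 1 + l) v (by
              rw [Nat.odd_iff]; rw [Nat.even_iff] at hn hl2; omega)
              ((hnw.append hstep1).append hl)
          · exact hfree (m + l) v (by
              rw [Nat.odd_iff]; rw [Nat.even_iff] at hm; rw [Nat.odd_iff] at hl2; omega)
              (hmw.append hl)
        simp only [g₀, hye, hzn, decide_true, decide_false]
        decide
      · have hze : ∃ n, Even n ∧ WalkIn (arc N) {x | x ∈ T} n v z := by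
          obtain ⟨n, hn⟩ := (Finset.mem_filter.mp hy).2
          have hno : Odd n := by
            by_contra h
            exact hye ⟨n, Nat.not_odd_iff_even.mp h, hn⟩
          exact ⟨n + 1, hno.add_one, hn.append hstep1⟩
        simp only [g₀, hye, hze, decide_true, decide_false]
        decide
    refine extend_two N T C (Finset.filter_subset _ _) γ d hd g₀ ?_ ?_
    · intro x hx
      have hxT : x ∈ T := (Finset.mem_filter.mp hx).1
      have hempty : (N x ∩ T).filter (fun y => y ∈ C → g₀ y = g₀ x) = ∅ := by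
        rw [Finset.filter_eq_empty_iff]
        intro y hy hcon
        rw [Finset.mem_inter] at hy
        obtain ⟨h1, h2⟩ := hclosed x hx y hy.1 hy.2
        exact h2 (hcon h1)
      rw [hempty, Finset.card_empty, add_zero]
      exact hhalf x hxT _
    · intro γ' hγ'
      refine ih (T \ C) ?_ γ' (hfree.mono ?_) hγ'
      · exact Finset.sdiff_ssubset (Finset.filter_subset _ _) ⟨v, hvC⟩
      · intro x hx
        exact (Finset.mem_sdiff.mp hx).1

end Pool.Agent.R53.OddFree
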