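import Pool.Agent.R53.OddFree

namespace Pool.Agent.R53.OddFree

universe u
variable {V : Type u} [DecidableEq V]

/-- arcs of a digraph given by out-neighbourhoods -/
def arc (N : V → Finset V) : V → V → Prop := fun x y => y ∈ N x

/-- `a` is a hole of the colouring `d` of `S`. -/
def Hole (N : V → Finset V) (S : Finset V) (d : V → Fin 3) (a : V) : Prop :=
  a ∈ S ∧ ∀ i, OddFree (arc N) {x | x ∈ S ∧ d x = i ∧ x ≠ a}

/-- no good 3-partition of `S` -/
def NP (N : V → Finset V) (S : Finset V) : Prop :=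
  ∀ d : V → Fin 3, ∃ i, ¬ OddFree (arc N) {x | x ∈ S ∧ d x = i}

section
variable {N : V → Finset V} {S : Finset V} {d : V → Fin 3} {a b : V}

theorem Hole.update_self (h : Hole N S d a) (i : Fin 3) :
    Hole N S (Function.update d a i) a := by
  refine ⟨h.1, fun j => (h.2 j).mono ?_⟩
  rintro x ⟨h1, h2, h3⟩
  rw [Function.update_of_ne h3] at h2
  exact ⟨h1, h2, h3⟩

theorem Hole.exists_out (hNP : NP N S) (hirr : ∀ x, x ∉ N x) (h : Hole N S d a) (i : Fin 3) :
    ∃ y ∈ S, d y = i ∧ y ≠ a ∧ y ∈ N a := by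
  obtain ⟨j, hj⟩ := hNP (Function.update d a i)
  by_cases hji : j = i
  · subst hji
    by_contra hcon
    push Not at hcon
    apply hj
    refine oddFree_of_no_out (a := a) ((h.2 j).mono ?_) ?_
    · rintro x ⟨⟨h1, h2⟩, h3⟩
      have h3' : x ≠ a := h3
      rw [Function.update_of_ne h3'] at h2
      exact ⟨h1, h2, h3'⟩
    · rintro y ⟨h1, h2⟩ hy
      have hya : y ≠ a := by rintro rfl; exact hirr _ hy
      rw [Function.update_of_ne hya] at h2
      exact hcon y h1 h2 hya hy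
  · exfalso
    apply hj
    refine (h.2 j).mono ?_
    rintro x ⟨h1, h2⟩
    have hxa : x ≠ a := by
      rintro rfl
      rw [Function.update_self] at h2
      exact hji h2.symm
    rw [Function.update_of_ne hxa] at h2
    exact ⟨h1, h2, hxa⟩

theorem Hole.exists_in (hNP : NP N S) (hirr : ∀ x, x ∉ N x) (h : Hole N S d a) (i : Fin 3) :
    ∃ y ∈ S, d y = i ∧ y ≠ a ∧ a ∈ N y := by
  obtain ⟨j, hj⟩ := hNP (Function.update d a i)
  by_cases hji : j = i
  · subst hji
    by_contra hcon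
    push Not at hcon
    apply hj
    refine oddFree_of_no_in (a := a) ((h.2 j).mono ?_) ?_
    · rintro x ⟨⟨h1, h2⟩, h3⟩
      have h3' : x ≠ a := h3
      rw [Function.update_of_ne h3'] at h2
      exact ⟨h1, h2, h3'⟩
    · rintro y ⟨h1, h2⟩ hy
      have hya : y ≠ a := by rintro rfl; exact hirr _ hy
      rw [Function.update_of_ne hya] at h2
      exact hcon y h1 h2 hya hy
  · exfalso
    apply hj
    refine (h.2 j).mono ?_
    rintro x ⟨h1, h2⟩
    have hxa : x ≠ a := by
      rintro rfl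
      rw [Function.update_self] at h2
      exact hji h2.symm
    rw [Function.update_of_ne hxa] at h2
    exact ⟨h1, h2, hxa⟩

/-- three elements with distinct colours in a set of size at most three: uniqueness -/
theorem unique_of_card {T : Finset V} (hT : T.card ≤ 3) (d : V → Fin 3)
    (hex : ∀ i, ∃ y ∈ T, d y = i) {y z : V} (hy : y ∈ T) (hz : z ∈ T) (hyz : d y = d z) : y = z := by
  have himg : T.image d = Finset.univ := by
    ext i
    simp only [Finset.mem_image, Finset.mem_univ, iff_true]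
    exact hex i
  have hc : (T.image d).card = T.card := by
    have h1 : (T.image d).card = 3 := by rw [himg]; simp
    have h2 := Finset.card_image_le (s := T) (f := d)
    omega
  exact Finset.card_image_iff.mp hc hy hz hyz

theorem Hole.unique_out (hNP : NP N S) (hirr : ∀ x, x ∉ N x) (h3 : ∀ x, (N x).card ≤ 3)
    (h : Hole N S d a) {y z : V} (hy : y ∈ N a) (hz : z ∈ N a) (hyz : d y = d z) : y = z := by
  refine unique_of_card (h3 a) d ?_ hy hz hyz
  intro i
  obtain ⟨y, _, h2, _, h4⟩ := h.exists_out hNP hirr i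
  exact ⟨y, h4, h2⟩

theorem Hole.unique_in (hNP : NP N S) (hirr : ∀ x, x ∉ N x)
    (hin : ∀ v ∈ S, (S.filter (fun x => v ∈ N x)).card ≤ 3)
    (h : Hole N S d a) {y z : V} (hyS : y ∈ S) (hzS : z ∈ S) (hy : a ∈ N y) (hz : a ∈ N z)
    (hyz : d y = d z) : y = z := by
  refine unique_of_card (hin a h.1) d ?_ (Finset.mem_filter.mpr ⟨hyS, hy⟩)
    (Finset.mem_filter.mpr ⟨hzS, hz⟩) hyz
  intro i
  obtain ⟨y, h1, h2, _, h4⟩ := h.exists_in hNP hirr i
  exact ⟨y, Finset.mem_filter.mpr ⟨h1, h4⟩, h2⟩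

/-- moving a hole along an out-arc inside its own colour class -/
theorem Hole.move_out (hNP : NP N S) (hirr : ∀ x, x ∉ N x) (h3 : ∀ x, (N x).card ≤ 3)
    (h : Hole N S d a) (hb : b ∈ S) (hab : b ∈ N a) (hd : d b = d a) : Hole N S d b := by
  refine ⟨hb, fun j => ?_⟩
  by_cases hj : j = d a
  · subst hj
    refine oddFree_of_no_out (a := a) ((h.2 (d a)).mono ?_) ?_
    · rintro x ⟨⟨h1, h2, h4⟩, h5⟩
      exact ⟨h1, h2, h5⟩
    · rintro y ⟨h1, h2, h4⟩ hy
      exact h4 (h.unique_out hNP hirr h3 hy hab (h2.trans hd.symm))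
  · refine (h.2 j).mono ?_
    rintro x ⟨h1, h2, h4⟩
    refine ⟨h1, h2, ?_⟩
    rintro rfl
    exact hj h2.symm

theorem Hole.move_in (hNP : NP N S) (hirr : ∀ x, x ∉ N x)
    (hin : ∀ v ∈ S, (S.filter (fun x => v ∈ N x)).card ≤ 3)
    (h : Hole N S d a) (hb : b ∈ S) (hab : a ∈ N b) (hd : d b = d a) : Hole N S d b := by
  refine ⟨hb, fun j => ?_⟩
  by_cases hj : j = d a
  · subst hj
    refine oddFree_of_no_in (a := a) ((h.2 (d a)).mono ?_) ?_
    · rintro x ⟨⟨h1, h2, h4⟩, h5⟩
      exact ⟨h1, h2, h5⟩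
    · rintro y ⟨h1, h2, h4⟩ hy
      exact h4 (h.unique_in hNP hirr hin h1 hb hy hab (h2.trans hd.symm))
  · refine (h.2 j).mono ?_
    rintro x ⟨h1, h2, h4⟩
    refine ⟨h1, h2, ?_⟩
    rintro rfl
    exact hj h2.symm

/-- no 2-cycle through a hole inside its colour class -/
theorem Hole.no_two_cycle (hNP : NP N S) (hirr : ∀ x, x ∉ N x) (h3 : ∀ x, (N x).card ≤ 3)
    (hin : ∀ v ∈ S, (S.filter (fun x => v ∈ N x)).card ≤ 3)
    (h : Hole N S d a) (hb : b ∈ S) (hab : b ∈ N a) (hba : a ∈ N b) (hd : d b = d a) : False := by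
  have hB : Hole N S d b := h.move_out hNP hirr h3 hb hab hd
  have hne : a ≠ b := by rintro rfl; exact hirr _ hab
  have hfree : OddFree (arc N) {x | x ∈ S ∧ d x = d a} := by
    refine oddFree_of_two_cycle (a := a) (b := b) hne ?_ ?_ ?_ ?_ ((h.2 (d a)).mono ?_)
    · rintro y ⟨h1, h2⟩ hy
      exact h.unique_out hNP hirr h3 hy hab (h2.trans hd.symm)
    · rintro y ⟨h1, h2⟩ hy
      exact hB.unique_out hNP hirr h3 hy hba h2
    · rintro y ⟨h1, h2⟩ hy
      exact h.unique_in hNP hirr hin h1 hb hy hba (h2.trans hd.symm)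
    · rintro y ⟨h1, h2⟩ hy
      exact hB.unique_in hNP hirr hin h1 h.1 hy hab h2
    · rintro x ⟨⟨h1, h2⟩, h4⟩
      exact ⟨h1, h2, h4⟩
  obtain ⟨j, hj⟩ := hNP d
  by_cases hja : j = d a
  · subst hja; exact hj hfree
  · apply hj
    refine (h.2 j).mono ?_
    rintro x ⟨h1, h2⟩
    refine ⟨h1, h2, ?_⟩
    rintro rfl
    exact hja h2.symm

/-- general move of the hole along an out-arc -/
theorem Hole.step (hNP : NP N S) (hirr : ∀ x, x ∉ N x) (h3 : ∀ x, (N x).card ≤ 3)
    (h : Hole N S d a) (hb : b ∈ S) (hba : b ≠ a) (hab : b ∈ N a) :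
    Hole N S (Function.update d a (d b)) b := by
  have h1 := h.update_self (d b)
  refine h1.move_out hNP hirr h3 hb hab ?_
  rw [Function.update_of_ne hba, Function.update_self]

end

end Pool.Agent.R53.OddFree
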