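import Mathlib

/-! Odd families of zero positions of a non-negative matrix: rounding lemmas. -/

namespace R53.OddPos

open Finset

/-- maximum of a nonnegative linear functional over `{v ∈ [0,q]^s, ∑ v ≤ c}` is attained at an integral vector -/
theorem round_one {β : Type*} [DecidableEq β] (q : ℕ) (w : β → ℝ) (hw : ∀ i, 0 ≤ w i) :
    ∀ (m : ℕ) (s : Finset β), s.card = m → ∀ (c : ℕ) (v : β → ℝ), (∀ i, 0 ≤ v i) →
      (∀ i, v i ≤ q) → ∑ i ∈ s, v i ≤ c →
      ∃ b : β → ℕ, (∀ i, b i ≤ q) ∧ (∀ i, i ∉ s → b i = 0) ∧ ∑ i ∈ s, b i ≤ c ∧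
        ∑ i ∈ s, w i * v i ≤ ∑ i ∈ s, w i * (b i : ℝ) := by
  intro m
  induction m with
  | zero =>
    intro s hs c v _ _ _
    rw [Finset.card_eq_zero] at hs
    subst hs
    exact ⟨fun _ => 0, by simp, by simp, by simp, by simp⟩
  | succ m ih =>
    intro s hs c v hv0 hvq hsum
    have hne : s.Nonempty := by
      rw [← Finset.card_pos]; omega
    obtain ⟨i0, hi0, hmax⟩ := Finset.exists_max_image s w hne
    set s' := s.erase i0 with hs'
    have hcard : s'.card = m := by
      rw [hs', Finset.card_erase_of_mem hi0]; omega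
    have hins : s = insert i0 s' := (Finset.insert_erase hi0).symm
    have hi0' : i0 ∉ s' := by simp [hs']
    have hsplit : ∀ f : β → ℝ, ∑ i ∈ s, f i = f i0 + ∑ i ∈ s', f i := by
      intro f
      rw [hins, Finset.sum_insert hi0']
    have hsplitN : ∀ f : β → ℕ, ∑ i ∈ s, f i = f i0 + ∑ i ∈ s', f i := by
      intro f
      rw [hins, Finset.sum_insert hi0']
    by_cases hcq : c ≤ q
    · refine ⟨fun i => if i = i0 then c else 0, ?_, ?_, ?_, ?_⟩
      · intro i; by_cases h : i = i0 <;> simp [h, hcq]
      · intro i hi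
        have : i ≠ i0 := fun h => hi (h ▸ hi0)
        simp [this]
      · rw [hsplitN]
        have : ∑ i ∈ s', (if i = i0 then c else 0) = 0 := by
          apply Finset.sum_eq_zero
          intro i hi
          have : i ≠ i0 := fun h => hi0' (h ▸ hi)
          simp [this]
        simp [this]
      · have h1 : ∑ i ∈ s, w i * v i ≤ ∑ i ∈ s, w i0 * v i := by
          apply Finset.sum_le_sum
          intro i hi
          exact mul_le_mul_of_nonneg_right (hmax i hi) (hv0 i)
        have h2 : ∑ i ∈ s, w i0 * v i ≤ w i0 * c := by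
          rw [← Finset.mul_sum]
          exact mul_le_mul_of_nonneg_left hsum (hw i0)
        have h3 : ∑ i ∈ s, w i * (((if i = i0 then c else 0 : ℕ)) : ℝ) = w i0 * c := by
          rw [Finset.sum_eq_single i0]
          · simp
          · intro b _ hb; simp [hb]
          · intro h; exact absurd hi0 h
        rw [h3]
        exact h1.trans h2
    · push Not at hcq
      -- remaining capacity
      set c' := c - q with hc'
      have hc'r : (c' : ℝ) = (c : ℝ) - q := by
        rw [hc', Nat.cast_sub hcq.le]
      obtain ⟨v'', hv''0, hv''q, hv''s, hv''d, hv''e⟩ :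
          ∃ v'' : β → ℝ, (∀ i, 0 ≤ v'' i) ∧ (∀ i, v'' i ≤ q) ∧ (∑ i ∈ s', v'' i ≤ c') ∧
            (∀ i, v'' i ≤ v i) ∧ (∑ i ∈ s', (v i - v'' i) ≤ q - v i0) := by
        by_cases hle : ∑ i ∈ s', v i ≤ c'
        · refine ⟨v, hv0, hvq, hle, fun _ => le_rfl, ?_⟩
          simp
          exact hvq i0
        · push Not at hle
          set S := ∑ i ∈ s', v i with hS
          have hc'0 : (0 : ℝ) ≤ c' := Nat.cast_nonneg _
          have hSpos : 0 < S := lt_of_le_of_lt hc'0 hle
          set l := (c' : ℝ) / S with hl
          have hl0 : 0 ≤ l := div_nonneg hc'0 hSpos.le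
          have hl1 : l ≤ 1 := by
            rw [hl, div_le_one hSpos]; exact hle.le
          refine ⟨fun i => l * v i, ?_, ?_, ?_, ?_, ?_⟩
          · intro i; exact mul_nonneg hl0 (hv0 i)
          · intro i
            calc l * v i ≤ 1 * v i := mul_le_mul_of_nonneg_right hl1 (hv0 i)
              _ = v i := one_mul _
              _ ≤ q := hvq i
          · rw [← Finset.mul_sum, ← hS, hl]
            field_simp
            exact le_rfl
          · intro i
            calc l * v i ≤ 1 * v i := mul_le_mul_of_nonneg_right hl1 (hv0 i)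
              _ = v i := one_mul _
          · rw [Finset.sum_sub_distrib, ← Finset.mul_sum, ← hS]
            have : l * S = c' := by
              rw [hl]; field_simp
            rw [this, hc'r]
            have := hsplit v
            rw [this] at hsum
            linarith
      obtain ⟨b'', hb1, hb2, hb3, hb4⟩ := ih s' hcard c' v'' hv''0 hv''q hv''s
      refine ⟨fun i => if i = i0 then q else b'' i, ?_, ?_, ?_, ?_⟩
      · intro i; by_cases h : i = i0 <;> simp [h, hb1]
      · intro i hi
        have h1 : i ≠ i0 := fun h => hi (h ▸ hi0)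
        have h2 : i ∉ s' := fun h => hi (Finset.mem_of_mem_erase h)
        simp [h1, hb2 i h2]
      · rw [hsplitN]
        have : ∑ i ∈ s', (if i = i0 then q else b'' i) = ∑ i ∈ s', b'' i := by
          apply Finset.sum_congr rfl
          intro i hi
          have : i ≠ i0 := fun h => hi0' (h ▸ hi)
          simp [this]
        rw [this]
        simp only [if_true]
        omega
      · rw [hsplit, hsplit]
        have e1 : ∑ i ∈ s', w i * (((if i = i0 then q else b'' i : ℕ)) : ℝ)
            = ∑ i ∈ s', w i * (b'' i : ℝ) := by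
          apply Finset.sum_congr rfl
          intro i hi
          have : i ≠ i0 := fun h => hi0' (h ▸ hi)
          simp [this]
        rw [e1]
        simp only [if_true]
        have h1 : ∑ i ∈ s', w i * v i ≤ ∑ i ∈ s', w i * v'' i + w i0 * (q - v i0) := by
          have : ∑ i ∈ s', w i * v i = ∑ i ∈ s', w i * v'' i + ∑ i ∈ s', w i * (v i - v'' i) := by
            rw [← Finset.sum_add_distrib]
            apply Finset.sum_congr rfl
            intro i _; ring
          rw [this]
          have h2 : ∑ i ∈ s', w i * (v i - v'' i) ≤ ∑ i ∈ s', w i0 * (v i - v'' i) := by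
            apply Finset.sum_le_sum
            intro i hi
            exact mul_le_mul_of_nonneg_right (hmax i (Finset.mem_of_mem_erase hi))
              (by linarith [hv''d i])
          have h3 : ∑ i ∈ s', w i0 * (v i - v'' i) ≤ w i0 * (q - v i0) := by
            rw [← Finset.mul_sum]
            exact mul_le_mul_of_nonneg_left hv''e (hw i0)
          linarith
        nlinarith [hb4, h1]

/-- the quadratic form -/
noncomputable def F {β : Type*} [Fintype β] (V : β → β → ℝ) : ℝ := ∑ y, ∑ z, V y z * V z y

theorem F_update {β : Type*} [Fintype β] [DecidableEq β] (V : β → β → ℝ) (y : β) (b : β → ℝ)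
    (h0 : V y y = 0) (hb : b y = 0)
    (h : ∑ z, V z y * V y z ≤ ∑ z, V z y * b z) : F V ≤ F (Function.update V y b) := by
  -- write update as V + D
  set D : β → β → ℝ := fun u z => if u = y then b z - V y z else 0 with hD
  have hVD : Function.update V y b = fun u z => V u z + D u z := by
    funext u z
    by_cases hu : u = y
    · subst hu; simp [hD]
    · simp [hD, hu, Function.update_of_ne hu]
  have hexp : F (Function.update V y b) = F V + ∑ u, ∑ z, V u z * D z u + ∑ u, ∑ z, D u z * V z u
      + ∑ u, ∑ z, D u z * D z u := by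
    rw [hVD]
    unfold F
    rw [← Finset.sum_add_distrib, ← Finset.sum_add_distrib, ← Finset.sum_add_distrib]
    apply Finset.sum_congr rfl
    intro u _
    rw [← Finset.sum_add_distrib, ← Finset.sum_add_distrib, ← Finset.sum_add_distrib]
    apply Finset.sum_congr rfl
    intro z _
    ring
  have hsw : ∑ u, ∑ z, V u z * D z u = ∑ u, ∑ z, D u z * V z u := by
    rw [Finset.sum_comm]
    apply Finset.sum_congr rfl
    intro u _
    apply Finset.sum_congr rfl
    intro z _
    ring
  have h1 : ∑ u, ∑ z, D u z * V z u = ∑ z, (b z - V y z) * V z y := by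
    rw [Finset.sum_eq_single y]
    · apply Finset.sum_congr rfl
      intro z _
      simp [hD]
    · intro u _ hu
      apply Finset.sum_eq_zero
      intro z _
      simp [hD, hu]
    · intro h; exact absurd (Finset.mem_univ y) h
  have h2 : ∑ u, ∑ z, D u z * D z u = 0 := by
    rw [Finset.sum_eq_single y]
    · rw [Finset.sum_eq_single y]
      · simp [hD, h0, hb]
      · intro z _ hz
        simp [hD, hz]
      · intro h; exact absurd (Finset.mem_univ y) h
    · intro u _ hu
      apply Finset.sum_eq_zero
      intro z _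
      simp [hD, hu]
    · intro h; exact absurd (Finset.mem_univ y) h
  rw [hexp, hsw, h1, h2]
  have h3 : ∑ z, (b z - V y z) * V z y = ∑ z, V z y * b z - ∑ z, V z y * V y z := by
    rw [← Finset.sum_sub_distrib]
    apply Finset.sum_congr rfl
    intro z _; ring
  rw [h3]
  linarith

theorem round_all {β : Type*} [Fintype β] [DecidableEq β] (q : ℕ) (c : β → ℕ) (V : β → β → ℝ)
    (h0 : ∀ y z, 0 ≤ V y z) (hq : ∀ y z, V y z ≤ q) (hd : ∀ y, V y y = 0)
    (hs : ∀ y, ∑ z, V y z ≤ c y) (s : Finset β) :
    ∃ W : β → β → ℝ, (∀ y z, 0 ≤ W y z) ∧ (∀ y z, W y z ≤ q) ∧ (∀ y, W y y = 0) ∧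
      (∀ y, ∑ z, W y z ≤ c y) ∧ (∀ y ∈ s, ∃ b : β → ℕ, ∀ z, W y z = b z) ∧ F V ≤ F W := by
  induction s using Finset.induction_on with
  | empty => exact ⟨V, h0, hq, hd, hs, by simp, le_rfl⟩
  | insert y s hy ih =>
    obtain ⟨W, w0, wq, wd, ws, wi, wF⟩ := ih
    obtain ⟨b, b1, b2, b3, b4⟩ := round_one q (fun z => W z y) (fun z => w0 z y)
      _ (Finset.univ.erase y) rfl (c y) (W y) (w0 y) (wq y)
      (by
        have := Finset.sum_erase_eq_sub (f := fun z => W y z) (Finset.mem_univ y)
        have h2 : ∑ z ∈ Finset.univ.erase y, W y z = ∑ z, W y z := by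
          rw [Finset.sum_erase]; exact wd y
        rw [h2]; exact ws y)
    have hby : b y = 0 := b2 y (by simp)
    refine ⟨Function.update W y (fun z => (b z : ℝ)), ?_, ?_, ?_, ?_, ?_, ?_⟩
    · intro u z
      by_cases hu : u = y
      · subst hu; simp
      · rw [Function.update_of_ne hu]; exact w0 u z
    · intro u z
      by_cases hu : u = y
      · subst hu; simp [b1]
      · rw [Function.update_of_ne hu]; exact wq u z
    · intro u
      by_cases hu : u = y
      · subst hu; simp [hby]
      · rw [Function.update_of_ne hu]; exact wd u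
    · intro u
      by_cases hu : u = y
      · subst hu
        simp only [Function.update_self]
        have h2 : ∑ z, (b z : ℝ) = ∑ z ∈ Finset.univ.erase u, (b z : ℝ) := by
          rw [Finset.sum_erase]; simp [hby]
        rw [h2]
        exact_mod_cast b3
      · rw [Function.update_of_ne hu]; exact ws u
    · intro u hu
      by_cases huy : u = y
      · subst huy; exact ⟨b, by simp⟩
      · rw [Finset.mem_insert] at hu
        have : u ∈ s := by tauto
        obtain ⟨b', hb'⟩ := wi u this
        exact ⟨b', fun z => by rw [Function.update_of_ne huy]; exact hb' z⟩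
    · refine wF.trans ?_
      apply F_update W y _ (wd y) (by simp [hby])
      have e1 : ∑ z ∈ Finset.univ.erase y, W z y * W y z = ∑ z, W z y * W y z := by
        rw [Finset.sum_erase]; simp [wd]
      have e2 : ∑ z ∈ Finset.univ.erase y, W z y * (b z : ℝ) = ∑ z, W z y * (b z : ℝ) := by
        rw [Finset.sum_erase]; simp [hby]
      rw [← e1, ← e2]
      exact b4

theorem pair_le (q a b : ℕ) (ha : a ≤ q) (hb : b ≤ q) : 2 * a * b ≤ q * (a + b) := by
  nlinarith [Nat.mul_le_mul ha (le_refl b), Nat.mul_le_mul hb (le_refl a)]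

theorem pair_odd (q a b : ℕ) (ha : a ≤ q) (hb : b ≤ q) (h : (a + b) % 2 = 1) :
    2 * a * b + q ≤ q * (a + b) := by
  obtain ⟨a', rfl⟩ := Nat.exists_eq_add_of_le ha
  obtain ⟨b', hb'⟩ := Nat.exists_eq_add_of_le hb
  -- q = a + a' = b + b'
  -- claim : a * b' + b * a' ≥ a + a'
  have key : a + a' ≤ a * b' + b * a' := by
    by_cases hab : a ≤ b
    · -- a < b or a = b ; a + b odd so a < b
      have hlt : a < b := by
        rcases Nat.lt_or_ge a b with h' | h'
        · exact h'
        · have : a = b := le_antisymm hab h'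
          omega
      obtain ⟨d, rfl⟩ := Nat.exists_eq_add_of_lt hlt
      -- a' = b' + d + 1
      have ha' : a' = b' + d + 1 := by omega
      subst ha'
      nlinarith [Nat.zero_le (a * b'), Nat.zero_le (a * d), Nat.zero_le (d * b'), Nat.zero_le (d * d)]
    · push Not at hab
      obtain ⟨d, rfl⟩ := Nat.exists_eq_add_of_lt hab
      have hb2 : b' = a' + d + 1 := by omega
      subst hb2
      nlinarith [Nat.zero_le (b * a'), Nat.zero_le (b * d), Nat.zero_le (d * a'), Nat.zero_le (d * d)]
  have e1 : (a + a') * (a + b) = a * (a + a') + b * (a + a') := by ring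
  have e2 : a * (a + a') = a * (b + b') := by rw [hb']
  nlinarith [key, e1, e2]

theorem int_bound {β : Type*} [Fintype β] [DecidableEq β] (q : ℕ) (c : β → ℕ) (B : β → β → ℕ)
    (hq : ∀ y z, B y z ≤ q) (hd : ∀ y, B y y = 0) (hs : ∀ y, ∑ z, B y z ≤ c y)
    (hodd : Odd (∑ y, c y)) :
    ∑ y, ∑ z, B y z * B z y + q ≤ q * ∑ y, c y := by
  set T := ∑ y, ∑ z, B y z with hT
  have hTc : T ≤ ∑ y, c y := Finset.sum_le_sum (fun y _ => hs y)
  have hsym : ∑ y, ∑ z, B z y = T := by rw [hT, Finset.sum_comm]
  -- 2 F ≤ 2 q T
  have h2F : 2 * ∑ y, ∑ z, B y z * B z y = ∑ p : β × β, 2 * B p.1 p.2 * B p.2 p.1 := by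
    rw [Finset.mul_sum, Fintype.sum_prod_type]
    apply Finset.sum_congr rfl
    intro y _
    rw [Finset.mul_sum]
    apply Finset.sum_congr rfl
    intro z _
    ring
  have h2T : 2 * q * T = ∑ p : β × β, q * (B p.1 p.2 + B p.2 p.1) := by
    rw [Fintype.sum_prod_type]
    have : ∀ y, ∑ z, q * (B y z + B z y) = q * ∑ z, B y z + q * ∑ z, B z y := by
      intro y
      rw [← Finset.mul_sum, Finset.sum_add_distrib, mul_add]
    simp only [this]
    rw [Finset.sum_add_distrib, ← Finset.mul_sum, ← Finset.mul_sum, hsym, ← hT]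
    ring
  by_cases hlt : T < ∑ y, c y
  · have hF : ∑ p : β × β, 2 * B p.1 p.2 * B p.2 p.1 ≤ ∑ p : β × β, q * (B p.1 p.2 + B p.2 p.1) :=
      Finset.sum_le_sum (fun p _ => pair_le q _ _ (hq _ _) (hq _ _))
    rw [← h2F, ← h2T] at hF
    have h3 : q * (T + 1) ≤ q * ∑ y, c y := Nat.mul_le_mul_left _ hlt
    nlinarith
  · have hTe : T = ∑ y, c y := le_antisymm hTc (not_lt.mp hlt)
    -- there is an odd pair
    obtain ⟨p0, hp0⟩ : ∃ p : β × β, (B p.1 p.2 + B p.2 p.1) % 2 = 1 := by
      by_contra hcon
      push Not at hcon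
      have hz : (∑ p : β × β, (B p.1 p.2 : ZMod 2)) = 0 := by
        apply Finset.sum_involution (fun p _ => (p.2, p.1))
        · intro p _
          have h1 := hcon p
          have h2 : (B p.1 p.2 + B p.2 p.1) % 2 = 0 := by omega
          have h3 : ((B p.1 p.2 + B p.2 p.1 : ℕ) : ZMod 2) = 0 := by
            rw [ZMod.natCast_eq_zero_iff]
            exact Nat.dvd_of_mod_eq_zero h2
          push_cast at h3
          exact h3
        · intro p _ hne heq
          apply hne
          have : p.1 = p.2 := by
            have := congrArg Prod.fst heq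
            exact this.symm
          rw [this, hd]
          simp
        · intro p _; exact Finset.mem_univ _
        · intro p _; rfl
      have hTz : ((T : ℕ) : ZMod 2) = 0 := by
        rw [hT, ← Fintype.sum_prod_type' (fun y z => B y z)]
        push_cast
        exact hz
      rw [ZMod.natCast_eq_zero_iff] at hTz
      rw [← hTe] at hodd
      rcases hodd with ⟨r, hr⟩
      omega
    have hne : p0 ≠ (p0.2, p0.1) := by
      intro heq
      have : p0.1 = p0.2 := congrArg Prod.fst heq
      rw [this, hd] at hp0
      simp at hp0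
    have hF : ∑ p : β × β, 2 * B p.1 p.2 * B p.2 p.1 + 2 * q
        ≤ ∑ p : β × β, q * (B p.1 p.2 + B p.2 p.1) := by
      have : ∑ p : β × β, (2 * B p.1 p.2 * B p.2 p.1 +
          (if p = p0 then q else 0) + (if p = (p0.2, p0.1) then q else 0))
          ≤ ∑ p : β × β, q * (B p.1 p.2 + B p.2 p.1) := by
        apply Finset.sum_le_sum
        intro p _
        by_cases h1 : p = p0
        · subst h1
          simp only [if_true, if_neg hne]
          have := pair_odd q _ _ (hq p.1 p.2) (hq p.2 p.1) hp0
          omega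
        · by_cases h2 : p = (p0.2, p0.1)
          · subst h2
            simp only [if_true, if_neg h1]
            have := pair_odd q _ _ (hq p0.2 p0.1) (hq p0.1 p0.2) (by omega)
            simpa using this
          · simp only [if_neg h1, if_neg h2, add_zero]
            exact pair_le q _ _ (hq _ _) (hq _ _)
      rw [Finset.sum_add_distrib, Finset.sum_add_distrib, Finset.sum_ite_eq' Finset.univ p0,
        Finset.sum_ite_eq' Finset.univ (p0.2, p0.1)] at this
      simp only [Finset.mem_univ, if_true] at this
      omega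
    rw [← h2F, ← h2T] at hF
    rw [← hTe]
    nlinarith

theorem real_bound {β : Type*} [Fintype β] [DecidableEq β] (q : ℕ) (c : β → ℕ) (V : β → β → ℝ)
    (h0 : ∀ y z, 0 ≤ V y z) (hq : ∀ y z, V y z ≤ q) (hd : ∀ y, V y y = 0)
    (hs : ∀ y, ∑ z, V y z ≤ c y) (hodd : Odd (∑ y, c y)) :
    F V ≤ q * ((∑ y, c y : ℕ) - 1 : ℝ) := by
  obtain ⟨W, w0, wq, wd, ws, wi, wF⟩ := round_all q c V h0 hq hd hs Finset.univ
  choose B hB using fun y => wi y (Finset.mem_univ y)
  have key := int_bound q c B
    (fun y z => by have := wq y z; rw [hB] at this; exact_mod_cast this)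
    (fun y => by have := wd y; rw [hB] at this; exact_mod_cast this)
    (fun y => by
      have := ws y
      simp only [hB] at this
      exact_mod_cast this) hodd
  have hFW : F W = ((∑ y, ∑ z, B y z * B z y : ℕ) : ℝ) := by
    unfold F
    push_cast
    apply Finset.sum_congr rfl
    intro y _
    apply Finset.sum_congr rfl
    intro z _
    rw [hB, hB]
  have key' : (((∑ y, ∑ z, B y z * B z y + q : ℕ)) : ℝ) ≤ ((q * ∑ y, c y : ℕ) : ℝ) := by
    exact_mod_cast key
  rw [Nat.cast_add, Nat.cast_mul, ← hFW] at key'
  have : F V ≤ F W := wF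
  linarith

end R53.OddPos
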