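import Pool.Agent.R53.OddPart

namespace Pool.Agent.R53.OddFree

universe u
variable {V : Type u} [DecidableEq V]

/-- The combinatorial contradiction: an infinite sequence of hole moves in a finite digraph. -/
theorem seq_contradiction [Finite V] {N : V → Finset V} {S : Finset V}
    (hNP : NP N S) (hirr : ∀ x, x ∉ N x) (h3 : ∀ x, (N x).card ≤ 3)
    (hin : ∀ v ∈ S, (S.filter (fun x => v ∈ N x)).card ≤ 3)
    (D : ℕ → V → Fin 3) (w : ℕ → V) (b : ℕ → Fin 3)
    (hb : ∀ t, b (t + 1) ≠ b t)
    (hH1 : ∀ t, Hole N S (D t) (w t)) (hH2 : ∀ t, Hole N S (D t) (w (t + 1)))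
    (hD1 : ∀ t, D t (w t) = b t) (hD2 : ∀ t, D t (w (t + 1)) = b t)
    (hN : ∀ t, w (t + 1) ∈ N (w t))
    (hD : ∀ t x, x ≠ w (t + 1) → D (t + 1) x = D t x) : False := by
  -- `x` lies on the cycle of time `t`
  set A : ℕ → V → Prop := fun t x => Hole N S (D t) x ∧ D t x = b t with hA
  have hne : ∀ t, w (t + 1) ≠ w t := by
    intro t h
    have := hN t
    rw [h] at this
    exact hirr _ this
  have hex : ∃ r, ∃ s, s + 1 < r ∧ A s (w r) := by
    obtain ⟨i, j, hij, hw⟩ := Finite.exists_ne_map_eq_of_infinite w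
    wlog hlt : i < j generalizing i j
    · exact this j i hij.symm hw.symm (by omega)
    refine ⟨j, i, ?_, ?_⟩
    · rcases Nat.lt_or_ge (i + 1) j with h | h
      · exact h
      · exfalso
        have : j = i + 1 := by omega
        subst this
        exact hne i hw.symm
    · rw [← hw]; exact ⟨hH1 i, hD1 i⟩
  classical
  obtain ⟨s₀, hs₀, hA₀⟩ := Nat.find_spec hex
  set r := Nat.find hex with hr
  have hmin : ∀ q, q < r → ∀ s', s' + 1 < q → ¬ A s' (w q) := by
    intro q hq s' hs' hAq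
    exact Nat.find_min hex hq ⟨s', hs', hAq⟩
  -- choose s with w r ≠ w (s+1)
  obtain ⟨s, hs, hAs, hws⟩ : ∃ s, s + 1 < r ∧ A s (w r) ∧ w r ≠ w (s + 1) := by
    by_cases h : w r = w (s₀ + 1)
    · refine ⟨s₀ + 1, ?_, ?_, ?_⟩
      · rcases Nat.lt_or_ge (s₀ + 1 + 1) r with h1 | h1
        · exact h1
        · exfalso
          have : r = s₀ + 1 + 1 := by omega
          rw [this] at h
          exact hne _ h
      · rw [h]; exact ⟨hH1 _, hD1 _⟩
      · rw [h]; exact (hne _).symm
    · exact ⟨s₀, hs₀, hA₀, h⟩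
  obtain ⟨k, hk⟩ : ∃ k, r = k + 1 := ⟨r - 1, by omega⟩
  have hsk : s < k := by omega
  -- persistence of colours
  have persist : ∀ x t₁ t₂, t₁ ≤ t₂ → (∀ q, t₁ < q → q ≤ t₂ → w q ≠ x) → D t₂ x = D t₁ x := by
    intro x t₁ t₂ h12
    induction t₂, h12 using Nat.le_induction with
    | base => intro _; rfl
    | succ m hm ih =>
      intro hq
      rw [hD m x (fun h => hq (m + 1) (by omega) le_rfl h.symm)]
      exact ih (fun q h1 h2 => hq q h1 (by omega))
  have P1 : ∀ s' x, A s' x → x ≠ w (s' + 1) → ∀ t, s' ≤ t → t < r → D t x = b s' := by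
    intro s' x hx hxw t h1 h2
    rw [persist x s' t h1 ?_]
    · exact hx.2
    · intro q hq1 hq2 hwq
      rcases Nat.lt_or_ge (s' + 1) q with h | h
      · exact hmin q (by omega) s' h (by rw [hwq]; exact hx)
      · have : q = s' + 1 := by omega
        subst this
        exact hxw hwq.symm
  have hAw1 : A s (w (s + 1)) := ⟨hH2 s, hD2 s⟩
  have P2 : ∀ t, s + 1 ≤ t → t < r → D t (w (s + 1)) = b (s + 1) := by
    intro t h1 h2
    rw [persist (w (s + 1)) (s + 1) t h1 ?_]
    · exact hD1 (s + 1)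
    · intro q hq1 hq2 hwq
      exact hmin q (by omega) s (by omega) (by rw [hwq]; exact hAw1)
  have hAws : A s (w s) := ⟨hH1 s, hD1 s⟩
  -- colours agree
  have hbk : b k = b s := by
    have h1 := P1 s (w r) hAs hws k (by omega) (by omega)
    rw [hk, hD2 k] at h1
    exact h1
  have hks : k ≠ s + 1 := by
    rintro rfl
    exact hb s hbk
  have hwk : ¬ A s (w k) := hmin k (by omega) s (by omega)
  -- the predecessor of `w r` on the old cycle is `w (s+1)`
  have hgr : w r ∈ N (w (s + 1)) := by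
    obtain ⟨g, hg1, hg2, hg3, hg4⟩ := hAs.1.exists_in hNP hirr (b s)
    have hAg : A s g := ⟨hAs.1.move_in hNP hirr hin hg1 hg4 (hg2.trans hAs.2.symm), hg2⟩
    by_cases hgw : g = w (s + 1)
    · rw [← hgw]; exact hg4
    · exfalso
      have h1 : D k g = b s := P1 s g hAg hgw k (by omega) (by omega)
      have h2 : Hole N S (D k) (w r) := by rw [hk]; exact hH2 k
      have h3' : g = w k := by
        refine h2.unique_in hNP hirr hin hg1 (hH1 k).1 hg4 ?_ ?_
        · rw [hk]; exact hN k
        · rw [h1, hD1 k, hbk]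
      exact hwk (h3' ▸ hAg)
  -- the chain from `w r` to `w s`
  set R : V → V → Prop := fun x y =>
    A s x ∧ x ≠ w (s + 1) ∧ A s y ∧ y ≠ w (s + 1) ∧ y ∈ N x with hR
  have hchain : Relation.ReflTransGen R (w r) (w s) := by
    by_contra hcon
    let T := {x : V // Relation.ReflTransGen R (w r) x}
    have hTA : ∀ x, Relation.ReflTransGen R (w r) x → A s x ∧ x ≠ w (s + 1) := by
      intro x hx
      rcases Relation.ReflTransGen.cases_tail hx with h | ⟨y, _, hy⟩
      · rw [h]; exact ⟨hAs, hws⟩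
      · exact ⟨hy.2.2.1, hy.2.2.2.1⟩
    have hstep : ∀ x : T, ∃ y : T, y.1 ∈ N x.1 := by
      rintro ⟨x, hx⟩
      obtain ⟨hxA, hxw⟩ := hTA x hx
      obtain ⟨y, hy1, hy2, hy3, hy4⟩ := hxA.1.exists_out hNP hirr (b s)
      have hAy : A s y := ⟨hxA.1.move_out hNP hirr h3 hy1 hy4 (hy2.trans hxA.2.symm), hy2⟩
      have hyw : y ≠ w (s + 1) := by
        rintro rfl
        have : x = w s := hAw1.1.unique_in hNP hirr hin hxA.1.1 hAws.1.1 hy4 (hN s)
          (hxA.2.trans hAws.2.symm)
        subst this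
        exact hcon hx
      exact ⟨⟨y, hx.tail ⟨hxA, hxw, hAy, hyw, hy4⟩⟩, hy4⟩
    choose σ hσ using hstep
    have hinj : Function.Injective σ := by
      intro x x' hxx
      have h1 := hTA x.1 x.2
      have h2 := hTA x'.1 x'.2
      have h4 := hTA (σ x).1 (σ x).2
      have h5 := hσ x
      have h6 := hσ x'
      rw [← hxx] at h6
      exact Subtype.ext (h4.1.1.unique_in hNP hirr hin h1.1.1.1 h2.1.1.1 h5 h6
        (h1.1.2.trans h2.1.2.symm))
    have hsurj : Function.Surjective σ := Finite.injective_iff_surjective.mp hinj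
    obtain ⟨x, hx⟩ := hsurj ⟨w r, Relation.ReflTransGen.refl⟩
    have h1 := hTA x.1 x.2
    have h2 : w r ∈ N x.1 := by
      have := hσ x
      rw [hx] at this
      exact this
    have : x.1 = w (s + 1) := hAs.1.unique_in hNP hirr hin h1.1.1.1 hAw1.1.1 h2 hgr
      (h1.1.2.trans hAw1.2.symm)
    exact h1.2 this
  -- forward closure: `w s` is a hole for `D k`
  have hforward : ∀ x, Relation.ReflTransGen R (w r) x → Hole N S (D k) x := by
    intro x hx
    induction hx with
    | refl => rw [hk]; exact hH2 k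
    | @tail y z hy hyz ih =>
      refine ih.move_out hNP hirr h3 hyz.2.2.1.1.1 hyz.2.2.2.2 ?_
      rw [P1 s z hyz.2.2.1 hyz.2.2.2.1 k (by omega) (by omega),
        P1 s y hyz.1 hyz.2.1 k (by omega) (by omega)]
  have hHs : Hole N S (D k) (w s) := hforward _ hchain
  -- final contradiction in the other colour class
  set D' := Function.update (D k) (w s) (b (s + 1)) with hD'
  have hH' : Hole N S D' (w s) := hHs.update_self _
  have hc1 : D' (w (s + 1)) = b (s + 1) := by
    rw [hD', Function.update_of_ne (hne s)]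
    exact P2 k (by omega) (by omega)
  have hc0 : D' (w s) = b (s + 1) := by rw [hD', Function.update_self]
  have hH1' : Hole N S D' (w (s + 1)) :=
    hH'.move_out hNP hirr h3 (hH1 (s + 1)).1 (hN s) (hc1.trans hc0.symm)
  obtain ⟨p, hp1, hp2, hp3, hp4⟩ := (hH1 (s + 1)).exists_in hNP hirr (b (s + 1))
  have hAp : A (s + 1) p :=
    ⟨(hH1 (s + 1)).move_in hNP hirr hin hp1 hp4 (hp2.trans (hD1 (s + 1)).symm), hp2⟩
  have hpw : p ≠ w (s + 1 + 1) := by
    rintro rfl
    exact (hH1 (s + 1)).no_two_cycle hNP hirr h3 hin hp1 (hN (s + 1)) hp4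
      ((hD2 (s + 1)).trans (hD1 (s + 1)).symm)
  have hDp : D k p = b (s + 1) := P1 (s + 1) p hAp hpw k (by omega) (by omega)
  have hws' : w s ≠ w (s + 1) := (hne s).symm
  have hps : p ≠ w s := by
    rintro rfl
    have h1 := P1 s (w s) hAws hws' k (by omega) (by omega)
    rw [h1] at hDp
    exact hb s hDp.symm
  have hD'p : D' p = b (s + 1) := by rw [hD', Function.update_of_ne hps]; exact hDp
  exact hps (hH1'.unique_in hNP hirr hin hp1 (hH1 s).1 hp4 (hN s) (hD'p.trans hc0.symm))

end Pool.Agent.R53.OddFree
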