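import Mathlib

/-! Parity obstruction for large Sidon sets in finite abelian groups. -/

namespace R53.SidonPar

open Finset

/-- Sidon set: pairwise sums (repetitions allowed) are distinct up to the order of the summands -/
def IsSidon {G : Type*} [AddCommGroup G] (A : Finset G) : Prop :=
  ∀ a ∈ A, ∀ b ∈ A, ∀ c ∈ A, ∀ d ∈ A, a + b = c + d → (a = c ∧ b = d) ∨ (a = d ∧ b = c)

variable {G : Type*} [AddCommGroup G]

theorem diff_inj {A : Finset G} (hA : IsSidon A) {a b c d : G} (ha : a ∈ A) (hb : b ∈ A)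
    (hc : c ∈ A) (hd : d ∈ A) (hab : a ≠ b) (h : a - b = c - d) : a = c ∧ b = d := by
  have h1 : a + d = c + b := by
    have h2 : a = c - d + b := by rw [← h]; abel
    rw [h2]
    abel
  rcases hA a ha d hd c hc b hb h1 with ⟨h2, h3⟩ | ⟨h2, h3⟩
  · exact ⟨h2, h3.symm⟩
  · exact absurd h2 hab

theorem diff_two {A : Finset G} (hA : IsSidon A) {a b : G} (ha : a ∈ A) (hb : b ∈ A)
    (hab : a ≠ b) : (2 : ℕ) • (a - b) ≠ 0 := by
  intro h
  have h1 : a + a = b + b := by
    rw [two_nsmul] at h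
    have : a + a - (b + b) = 0 := by rw [← h]; abel
    exact sub_eq_zero.mp this
  rcases hA a ha a ha b hb b hb h1 with ⟨h2, _⟩ | ⟨h2, _⟩ <;> exact hab h2

variable [Fintype G] [DecidableEq G]

theorem count_all {A : Finset G} (hA : IsSidon A) :
    A.card * (A.card - 1) + (univ.filter (fun g : G => (2 : ℕ) • g = 0)).card
      ≤ Fintype.card G := by
  have h1 : A.offDiag.card ≤ (univ.filter (fun g : G => ¬ ((2 : ℕ) • g = 0))).card := by
    apply Finset.card_le_card_of_injOn (fun p => p.1 - p.2)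
    · intro p hp
      rw [Finset.mem_coe, Finset.mem_offDiag] at hp
      simp only [Finset.coe_filter, Finset.mem_univ, true_and, Set.mem_ofPred_eq]
      exact diff_two hA hp.1 hp.2.1 hp.2.2
    · intro p hp q hq h
      rw [Finset.mem_coe, Finset.mem_offDiag] at hp hq
      obtain ⟨h2, h3⟩ := diff_inj hA hp.1 hp.2.1 hq.1 hq.2.1 hp.2.2 h
      exact Prod.ext h2 h3
  have h2 := Finset.card_filter_add_card_filter_not (s := (univ : Finset G))
    (fun g : G => (2 : ℕ) • g = 0)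
  rw [Finset.card_univ] at h2
  rw [Finset.offDiag_card] at h1
  have h3 : A.card * (A.card - 1) = A.card * A.card - A.card := by
    rw [Nat.mul_sub, mul_one]
  omega

theorem half (φ : G →+ ZMod 2) (hφ : Function.Surjective φ) :
    2 * (univ.filter (fun g : G => φ g = 0)).card = Fintype.card G ∧
    2 * (univ.filter (fun g : G => ¬ (φ g = 0))).card = Fintype.card G := by
  obtain ⟨g0, hg0⟩ := hφ 1
  have h1 : (univ.filter (fun g : G => φ g = 0)).card
      = (univ.filter (fun g : G => ¬ (φ g = 0))).card := by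
    apply Finset.card_bij (fun g _ => g + g0)
    · intro g hg
      rw [Finset.mem_filter] at hg ⊢
      refine ⟨Finset.mem_univ _, ?_⟩
      rw [map_add, hg.2, hg0]
      decide
    · intro a _ b _ h
      exact add_right_cancel h
    · intro g hg
      rw [Finset.mem_filter] at hg
      refine ⟨g - g0, ?_, sub_add_cancel _ _⟩
      rw [Finset.mem_filter]
      refine ⟨Finset.mem_univ _, ?_⟩
      rw [map_sub, hg0]
      have : ∀ x : ZMod 2, x ≠ 0 → x - 1 = 0 := by decide
      exact this _ hg.2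
  have h2 := Finset.card_filter_add_card_filter_not (s := (univ : Finset G))
    (fun g : G => φ g = 0)
  rw [Finset.card_univ] at h2
  omega

omit [Fintype G] [DecidableEq G] [AddCommGroup G] in
theorem arith (a b tE tO n : ℕ) (e1 : 2 * (a * a + b * b) + 2 * tE ≤ n + 2 * (a + b))
    (e2 : 4 * (a * b) + 2 * tO ≤ n) :
    ∃ c : ℕ, c % 2 = (a + b) % 2 ∧ (a + b) ^ 2 + 2 * tO ≤ n + c ^ 2 ∧
      c ^ 2 + (a + b) ^ 2 + 2 * tE ≤ n + 2 * (a + b) := by
  rcases le_total a b with hab | hab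
  · obtain ⟨c, rfl⟩ := Nat.exists_eq_add_of_le hab
    refine ⟨c, by omega, ?_, ?_⟩
    · have h1 : (a + (a + c)) ^ 2 = 4 * (a * (a + c)) + c ^ 2 := by ring
      rw [h1]; linarith
    · have h1 : c ^ 2 + (a + (a + c)) ^ 2 = 2 * (a * a + (a + c) * (a + c)) := by ring
      rw [h1]; linarith
  · obtain ⟨c, rfl⟩ := Nat.exists_eq_add_of_le hab
    refine ⟨c, by omega, ?_, ?_⟩
    · have h1 : (b + c + b) ^ 2 = 4 * ((b + c) * b) + c ^ 2 := by ring
      rw [h1]; linarith
    · have h1 : c ^ 2 + (b + c + b) ^ 2 = 2 * ((b + c) * (b + c) + b * b) := by ring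
      rw [h1]; linarith

theorem parity {A : Finset G} (hA : IsSidon A) (φ : G →+ ZMod 2) (hφ : Function.Surjective φ) :
    ∃ c : ℕ, c % 2 = A.card % 2 ∧
      A.card ^ 2 + 2 * (univ.filter (fun g : G => ¬ (φ g = 0) ∧ (2 : ℕ) • g = 0)).card
        ≤ Fintype.card G + c ^ 2 ∧
      c ^ 2 + A.card ^ 2 + 2 * (univ.filter (fun g : G => φ g = 0 ∧ (2 : ℕ) • g = 0)).card
        ≤ Fintype.card G + 2 * A.card := by
  obtain ⟨hE, hO⟩ := half φ hφ
  set A0 := A.filter (fun a => φ a = 0) with hA0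
  set A1 := A.filter (fun a => ¬ (φ a = 0)) with hA1
  have hm : A0.card + A1.card = A.card := Finset.card_filter_add_card_filter_not _
  have m0 : ∀ x, x ∈ A0 ↔ x ∈ A ∧ φ x = 0 := fun x => by rw [hA0, Finset.mem_filter]
  have m1 : ∀ x, x ∈ A1 ↔ x ∈ A ∧ ¬ (φ x = 0) := fun x => by rw [hA1, Finset.mem_filter]
  have hdisj : Disjoint A0.offDiag A1.offDiag := by
    rw [Finset.disjoint_left]
    intro p hp hq
    rw [Finset.mem_offDiag] at hp hq
    exact ((m1 _).mp hq.1).2 ((m0 _).mp hp.1).2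
  have hdisj2 : Disjoint (A0 ×ˢ A1) (A1 ×ˢ A0) := by
    rw [Finset.disjoint_left]
    intro p hp hq
    rw [Finset.mem_product] at hp hq
    exact ((m1 _).mp hq.1).2 ((m0 _).mp hp.1).2
  -- even differences
  have h1 : (A0.offDiag ∪ A1.offDiag).card
      ≤ (univ.filter (fun g : G => φ g = 0 ∧ ¬ ((2 : ℕ) • g = 0))).card := by
    apply Finset.card_le_card_of_injOn (fun p => p.1 - p.2)
    · intro p hp
      rw [Finset.mem_coe, Finset.mem_union, Finset.mem_offDiag, Finset.mem_offDiag] at hp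
      simp only [Finset.coe_filter, Finset.mem_univ, true_and, Set.mem_ofPred_eq]
      rcases hp with ⟨h2, h3, h4⟩ | ⟨h2, h3, h4⟩
      · rw [m0] at h2 h3
        refine ⟨?_, diff_two hA h2.1 h3.1 h4⟩
        rw [map_sub, h2.2, h3.2, sub_zero]
      · rw [m1] at h2 h3
        refine ⟨?_, diff_two hA h2.1 h3.1 h4⟩
        rw [map_sub]
        have : ∀ x y : ZMod 2, x ≠ 0 → y ≠ 0 → x - y = 0 := by decide
        exact this _ _ h2.2 h3.2
    · intro p hp q hq h
      rw [Finset.mem_coe, Finset.mem_union, Finset.mem_offDiag, Finset.mem_offDiag] at hp hq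
      have hp' : p.1 ∈ A ∧ p.2 ∈ A ∧ p.1 ≠ p.2 := by
        rcases hp with ⟨h2, h3, h4⟩ | ⟨h2, h3, h4⟩
        · exact ⟨((m0 _).mp h2).1, ((m0 _).mp h3).1, h4⟩
        · exact ⟨((m1 _).mp h2).1, ((m1 _).mp h3).1, h4⟩
      have hq' : q.1 ∈ A ∧ q.2 ∈ A := by
        rcases hq with ⟨h2, h3, h4⟩ | ⟨h2, h3, h4⟩
        · exact ⟨((m0 _).mp h2).1, ((m0 _).mp h3).1⟩
        · exact ⟨((m1 _).mp h2).1, ((m1 _).mp h3).1⟩
      obtain ⟨h2, h3⟩ := diff_inj hA hp'.1 hp'.2.1 hq'.1 hq'.2 hp'.2.2 h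
      exact Prod.ext h2 h3
  -- odd differences
  have h2 : ((A0 ×ˢ A1) ∪ (A1 ×ˢ A0)).card
      ≤ (univ.filter (fun g : G => ¬ (φ g = 0) ∧ ¬ ((2 : ℕ) • g = 0))).card := by
    have key : ∀ p ∈ (A0 ×ˢ A1) ∪ (A1 ×ˢ A0), p.1 ∈ A ∧ p.2 ∈ A ∧ p.1 ≠ p.2 ∧ φ (p.1 - p.2) ≠ 0 := by
      intro p hp
      rw [Finset.mem_union, Finset.mem_product, Finset.mem_product] at hp
      rcases hp with ⟨h2, h3⟩ | ⟨h2, h3⟩
      · rw [m0] at h2; rw [m1] at h3
        refine ⟨h2.1, h3.1, fun h => h3.2 (h ▸ h2.2), ?_⟩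
        rw [map_sub, h2.2, zero_sub]
        exact neg_ne_zero.mpr h3.2
      · rw [m1] at h2; rw [m0] at h3
        refine ⟨h2.1, h3.1, fun h => h2.2 (h ▸ h3.2), ?_⟩
        rw [map_sub, h3.2, sub_zero]
        exact h2.2
    apply Finset.card_le_card_of_injOn (fun p => p.1 - p.2)
    · intro p hp
      rw [Finset.mem_coe] at hp
      simp only [Finset.coe_filter, Finset.mem_univ, true_and, Set.mem_ofPred_eq]
      obtain ⟨k1, k2, k3, k4⟩ := key p hp
      exact ⟨k4, diff_two hA k1 k2 k3⟩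
    · intro p hp q hq h
      rw [Finset.mem_coe] at hp hq
      obtain ⟨k1, k2, k3, _⟩ := key p hp
      obtain ⟨l1, l2, _, _⟩ := key q hq
      obtain ⟨h2, h3⟩ := diff_inj hA k1 k2 l1 l2 k3 h
      exact Prod.ext h2 h3
  rw [Finset.card_union_of_disjoint hdisj, Finset.offDiag_card, Finset.offDiag_card] at h1
  rw [Finset.card_union_of_disjoint hdisj2, Finset.card_product, Finset.card_product] at h2
  have h3 := Finset.card_filter_add_card_filter_not
    (s := univ.filter (fun g : G => φ g = 0)) (fun g : G => (2 : ℕ) • g = 0)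
  have h4 := Finset.card_filter_add_card_filter_not
    (s := univ.filter (fun g : G => ¬ (φ g = 0))) (fun g : G => (2 : ℕ) • g = 0)
  rw [Finset.filter_filter, Finset.filter_filter] at h3 h4
  set a := A0.card with ha
  set b := A1.card with hb
  set tE := (univ.filter (fun g : G => φ g = 0 ∧ (2 : ℕ) • g = 0)).card with htE
  set tO := (univ.filter (fun g : G => ¬ (φ g = 0) ∧ (2 : ℕ) • g = 0)).card with htO
  have haa : a ≤ a * a := Nat.le_mul_self a
  have hbb : b ≤ b * b := Nat.le_mul_self b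
  have e1 : 2 * (a * a + b * b) + 2 * tE ≤ Fintype.card G + 2 * (a + b) := by omega
  have e2 : 4 * (a * b) + 2 * tO ≤ Fintype.card G := by
    have : b * a = a * b := mul_comm _ _
    omega
  rw [← hm]
  exact arith a b tE tO (Fintype.card G) e1 e2

end R53.SidonPar
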