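import Mathlib
import Pool.Agent.R53.SidonPar

/-! Projection inequalities for Sidon sets, and the quotient of order 3. -/

namespace R53.SidonPar

open Finset

variable {G : Type*} [AddCommGroup G] [Fintype G] [DecidableEq G]
variable {Q : Type*} [AddCommGroup Q] [Fintype Q] [DecidableEq Q]

theorem proj_ne {A : Finset G} (hA : IsSidon A) (φ : G →+ Q) {t : Q} (ht : t ≠ 0) :
    ∑ q : Q, (A.filter (fun a => φ a = q + t)).card * (A.filter (fun a => φ a = q)).card
      ≤ (univ.filter (fun g : G => φ g = t ∧ ¬ ((2 : ℕ) • g = 0))).card := by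
  have h1 : ((univ : Finset Q).biUnion (fun q =>
      (A.filter (fun a => φ a = q + t)) ×ˢ (A.filter (fun a => φ a = q)))).card
      = ∑ q : Q, (A.filter (fun a => φ a = q + t)).card * (A.filter (fun a => φ a = q)).card := by
    rw [Finset.card_biUnion]
    · exact Finset.sum_congr rfl (fun q _ => Finset.card_product _ _)
    · intro x _ y _ hxy
      rw [Function.onFun, Finset.disjoint_left]
      intro p hp hq
      rw [Finset.mem_product, Finset.mem_filter, Finset.mem_filter] at hp hq
      exact hxy (hp.2.2.symm.trans hq.2.2)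
  rw [← h1]
  have key : ∀ p ∈ (univ : Finset Q).biUnion (fun q =>
      (A.filter (fun a => φ a = q + t)) ×ˢ (A.filter (fun a => φ a = q))),
      p.1 ∈ A ∧ p.2 ∈ A ∧ p.1 ≠ p.2 ∧ φ (p.1 - p.2) = t := by
    intro p hp
    rw [Finset.mem_biUnion] at hp
    obtain ⟨q, _, hp⟩ := hp
    rw [Finset.mem_product, Finset.mem_filter, Finset.mem_filter] at hp
    obtain ⟨⟨k1, k2⟩, k3, k4⟩ := hp
    have k5 : φ (p.1 - p.2) = t := by rw [map_sub, k2, k4]; abel
    refine ⟨k1, k3, ?_, k5⟩
    intro h
    rw [h, sub_self, map_zero] at k5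
    exact ht k5.symm
  apply Finset.card_le_card_of_injOn (fun p => p.1 - p.2)
  · intro p hp
    rw [Finset.mem_coe] at hp
    simp only [Finset.coe_filter, Finset.mem_univ, true_and, Set.mem_ofPred_eq]
    obtain ⟨k1, k2, k3, k4⟩ := key p hp
    exact ⟨k4, diff_two hA k1 k2 k3⟩
  · intro p hp q hq h
    rw [Finset.mem_coe] at hp hq
    obtain ⟨k1, k2, k3, _⟩ := key p hp
    obtain ⟨l1, l2, _, _⟩ := key q hq
    obtain ⟨h2, h3⟩ := diff_inj hA k1 k2 l1 l2 k3 h
    exact Prod.ext h2 h3

theorem proj_zero {A : Finset G} (hA : IsSidon A) (φ : G →+ Q) :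
    ∑ q : Q, (A.filter (fun a => φ a = q)).card * (A.filter (fun a => φ a = q)).card
      ≤ A.card + (univ.filter (fun g : G => φ g = 0 ∧ ¬ ((2 : ℕ) • g = 0))).card := by
  have h0 : ∑ q : Q, (A.filter (fun a => φ a = q)).card = A.card :=
    (Finset.card_eq_sum_card_fiberwise (fun a _ => Finset.mem_univ (φ a))).symm
  have h1 : ((univ : Finset Q).biUnion (fun q => (A.filter (fun a => φ a = q)).offDiag)).card
      = ∑ q : Q, ((A.filter (fun a => φ a = q)).card * (A.filter (fun a => φ a = q)).card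
          - (A.filter (fun a => φ a = q)).card) := by
    rw [Finset.card_biUnion]
    · exact Finset.sum_congr rfl (fun q _ => Finset.offDiag_card _)
    · intro x _ y _ hxy
      rw [Function.onFun, Finset.disjoint_left]
      intro p hp hq
      rw [Finset.mem_offDiag, Finset.mem_filter, Finset.mem_filter] at hp hq
      exact hxy (hp.1.2.symm.trans hq.1.2)
  have h2 : ∑ q : Q, (A.filter (fun a => φ a = q)).card * (A.filter (fun a => φ a = q)).card
      = A.card + ((univ : Finset Q).biUnion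
          (fun q => (A.filter (fun a => φ a = q)).offDiag)).card := by
    rw [h1, ← h0, ← Finset.sum_add_distrib]
    refine Finset.sum_congr rfl (fun q _ => ?_)
    have := Nat.le_mul_self (A.filter (fun a => φ a = q)).card
    omega
  rw [h2]
  apply Nat.add_le_add_left
  have key : ∀ p ∈ (univ : Finset Q).biUnion (fun q => (A.filter (fun a => φ a = q)).offDiag),
      p.1 ∈ A ∧ p.2 ∈ A ∧ p.1 ≠ p.2 ∧ φ (p.1 - p.2) = 0 := by
    intro p hp
    rw [Finset.mem_biUnion] at hp
    obtain ⟨q, _, hp⟩ := hp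
    rw [Finset.mem_offDiag, Finset.mem_filter, Finset.mem_filter] at hp
    obtain ⟨⟨k1, k2⟩, ⟨k3, k4⟩, k5⟩ := hp
    exact ⟨k1, k3, k5, by rw [map_sub, k2, k4, sub_self]⟩
  apply Finset.card_le_card_of_injOn (fun p => p.1 - p.2)
  · intro p hp
    rw [Finset.mem_coe] at hp
    simp only [Finset.coe_filter, Finset.mem_univ, true_and, Set.mem_ofPred_eq]
    obtain ⟨k1, k2, k3, k4⟩ := key p hp
    exact ⟨k4, diff_two hA k1 k2 k3⟩
  · intro p hp q hq h
    rw [Finset.mem_coe] at hp hq
    obtain ⟨k1, k2, k3, _⟩ := key p hp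
    obtain ⟨l1, l2, _, _⟩ := key q hq
    obtain ⟨h2, h3⟩ := diff_inj hA k1 k2 l1 l2 k3 h
    exact Prod.ext h2 h3

theorem fibre_card (φ : G →+ Q) (hφ : Function.Surjective φ) (t : Q) :
    Fintype.card Q * (univ.filter (fun g : G => φ g = t)).card = Fintype.card G := by
  have h1 : ∀ q : Q, (univ.filter (fun g : G => φ g = q)).card
      = (univ.filter (fun g : G => φ g = t)).card := by
    intro q
    obtain ⟨g0, hg0⟩ := hφ (t - q)
    apply Finset.card_bij (fun g _ => g + g0)
    · intro g hg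
      rw [Finset.mem_filter] at hg ⊢
      refine ⟨Finset.mem_univ _, ?_⟩
      rw [map_add, hg.2, hg0]
      abel
    · intro a _ b _ h
      exact add_right_cancel h
    · intro g hg
      rw [Finset.mem_filter] at hg
      refine ⟨g - g0, ?_, sub_add_cancel _ _⟩
      rw [Finset.mem_filter]
      refine ⟨Finset.mem_univ _, ?_⟩
      rw [map_sub, hg0, hg.2]
      abel
  have h2 : ∑ q : Q, (univ.filter (fun g : G => φ g = q)).card = Fintype.card G := by
    rw [← Finset.card_univ]
    exact (Finset.card_eq_sum_card_fiberwise (fun a _ => Finset.mem_univ (φ a))).symm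
  rw [← h2, Finset.sum_congr rfl (fun q _ => h1 q), Finset.sum_const, Finset.card_univ,
    smul_eq_mul]

/-- quotient of order three -/
theorem three {A : Finset G} (hA : IsSidon A) (φ : G →+ ZMod 3) (hφ : Function.Surjective φ) :
    ∃ a b c : ℕ, a + b + c = A.card ∧
      3 * (a * b + b * c + c * a) ≤ Fintype.card G ∧
      3 * (a ^ 2 + b ^ 2 + c ^ 2) + 3 * (univ.filter (fun g : G => (2 : ℕ) • g = 0)).card
        ≤ Fintype.card G + 3 * A.card := by
  have h0 : ∑ q : ZMod 3, (A.filter (fun a => φ a = q)).card = A.card :=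
    (Finset.card_eq_sum_card_fiberwise (fun a _ => Finset.mem_univ (φ a))).symm
  have hs : ∀ f : ZMod 3 → ℕ, ∑ q : ZMod 3, f q = f 0 + f 1 + f 2 := fun f => Fin.sum_univ_three f
  have h10 : (1 : ZMod 3) ≠ 0 := by decide
  have h1 := proj_ne hA φ h10
  have h2 := proj_zero hA φ
  have h3 := fibre_card φ hφ 1
  have h4 := fibre_card φ hφ 0
  have e1 : (0 : ZMod 3) + 1 = 1 := by decide
  have e2 : (1 : ZMod 3) + 1 = 2 := by decide
  have e3 : (2 : ZMod 3) + 1 = 0 := by decide
  rw [hs] at h0 h1 h2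
  rw [e1, e2, e3] at h1
  rw [ZMod.card] at h3 h4
  have h5 : (univ.filter (fun g : G => φ g = 1 ∧ ¬ ((2 : ℕ) • g = 0))).card
      ≤ (univ.filter (fun g : G => φ g = 1)).card := by
    apply Finset.card_le_card
    intro g hg
    rw [Finset.mem_filter] at hg ⊢
    exact ⟨hg.1, hg.2.1⟩
  have h6 := Finset.card_filter_add_card_filter_not
    (s := univ.filter (fun g : G => φ g = 0)) (fun g : G => (2 : ℕ) • g = 0)
  rw [Finset.filter_filter, Finset.filter_filter] at h6
  have h7 : (univ.filter (fun g : G => φ g = 0 ∧ (2 : ℕ) • g = 0)).card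
      = (univ.filter (fun g : G => (2 : ℕ) • g = 0)).card := by
    congr 1
    ext g
    rw [Finset.mem_filter, Finset.mem_filter]
    constructor
    · rintro ⟨h, _, h'⟩
      exact ⟨h, h'⟩
    · rintro ⟨h, h'⟩
      refine ⟨h, ?_, h'⟩
      have h8 : (2 : ℕ) • φ g = 0 := by rw [← map_nsmul, h', map_zero]
      have h9 : ∀ x : ZMod 3, (2 : ℕ) • x = 0 → x = 0 := by decide
      exact h9 _ h8
  refine ⟨_, _, _, h0, ?_, ?_⟩
  · nlinarith
  · nlinarith

end R53.SidonPar
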