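import Mathlib
import Pool.Agent.R53.SidonParC

/-! Restricted and unrestricted sumsets in cyclic groups. -/

namespace R53.RestSum

open Finset

/-- the `h`-fold sumset `hA` (repetitions allowed) -/
def hfold {G : Type*} [AddCommGroup G] [DecidableEq G] (A : Finset G) : ℕ → Finset G
  | 0 => {0}
  | h + 1 => (hfold A h ×ˢ A).image (fun p => p.1 + p.2)

/-- the restricted `h`-fold sumset: sums of `h` pairwise distinct elements of `A` -/
def hhat {G : Type*} [AddCommGroup G] [DecidableEq G] (A : Finset G) (h : ℕ) : Finset G :=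
  (A.powersetCard h).image (fun s => ∑ x ∈ s, x)

section general

variable {G : Type*} [AddCommGroup G] [DecidableEq G]

theorem mem_hfold_succ {A : Finset G} {h : ℕ} {y : G} :
    y ∈ hfold A (h + 1) ↔ ∃ x ∈ hfold A h, ∃ a ∈ A, x + a = y := by
  rw [hfold, Finset.mem_image]
  constructor
  · rintro ⟨p, hp, rfl⟩
    rw [Finset.mem_product] at hp
    exact ⟨p.1, hp.1, p.2, hp.2, rfl⟩
  · rintro ⟨x, hx, a, ha, rfl⟩
    exact ⟨(x, a), Finset.mem_product.mpr ⟨hx, ha⟩, rfl⟩

theorem sum_mem {A : Finset G} : ∀ (h : ℕ) (s : Finset G), s ⊆ A → s.card = h →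
    ∑ x ∈ s, x ∈ hfold A h
  | 0, s, _, hc => by
    rw [Finset.card_eq_zero] at hc
    subst hc
    rw [Finset.sum_empty, hfold]
    exact Finset.mem_singleton_self _
  | h + 1, s, hs, hc => by
    have hne : s.Nonempty := Finset.card_pos.mp (by omega)
    obtain ⟨a, ha⟩ := hne
    have h1 := sum_mem (A := A) h (s.erase a) ((Finset.erase_subset _ _).trans hs)
      (by rw [Finset.card_erase_of_mem ha]; omega)
    rw [mem_hfold_succ]
    exact ⟨_, h1, a, hs ha, Finset.sum_erase_add _ _ ha⟩

theorem hhat_subset (A : Finset G) (h : ℕ) : hhat A h ⊆ hfold A h := by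
  intro y hy
  rw [hhat, Finset.mem_image] at hy
  obtain ⟨s, hs, rfl⟩ := hy
  rw [Finset.mem_powersetCard] at hs
  exact sum_mem h s hs.1 hs.2

theorem compl_card (A : Finset G) {h : ℕ} (hh : h ≤ A.card) :
    (hhat A (A.card - h)).card = (hhat A h).card := by
  have h1 : hhat A (A.card - h) = (hhat A h).image (fun x => ∑ a ∈ A, a - x) := by
    ext y
    rw [hhat, Finset.mem_image, Finset.mem_image]
    constructor
    · rintro ⟨s, hs, rfl⟩
      rw [Finset.mem_powersetCard] at hs
      refine ⟨∑ x ∈ A \ s, x, ?_, ?_⟩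
      · rw [hhat, Finset.mem_image]
        refine ⟨A \ s, ?_, rfl⟩
        rw [Finset.mem_powersetCard]
        refine ⟨Finset.sdiff_subset, ?_⟩
        rw [Finset.card_sdiff_of_subset hs.1, hs.2]
        omega
      · rw [← Finset.sum_sdiff hs.1]
        abel
    · rintro ⟨x, hx, rfl⟩
      rw [hhat, Finset.mem_image] at hx
      obtain ⟨s, hs, rfl⟩ := hx
      rw [Finset.mem_powersetCard] at hs
      refine ⟨A \ s, ?_, ?_⟩
      · rw [Finset.mem_powersetCard]
        refine ⟨Finset.sdiff_subset, ?_⟩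
        rw [Finset.card_sdiff_of_subset hs.1, hs.2]
      · rw [← Finset.sum_sdiff hs.1]
        abel
  rw [h1, Finset.card_image_of_injective]
  intro x y hxy
  exact sub_right_injective hxy

end general

section proj

variable {G Q : Type*} [AddCommGroup G] [DecidableEq G] [AddCommGroup Q] [DecidableEq Q]

theorem fold_image (π : G →+ Q) (A : Finset G) : ∀ i : ℕ,
    hfold (A.image π) i = (hfold A i).image π
  | 0 => by rw [hfold, hfold, Finset.image_singleton, map_zero]
  | i + 1 => by
    ext y
    rw [mem_hfold_succ, Finset.mem_image, fold_image π A i]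
    constructor
    · rintro ⟨x, hx, a, ha, rfl⟩
      rw [Finset.mem_image] at hx ha
      obtain ⟨x', hx', rfl⟩ := hx
      obtain ⟨a', ha', rfl⟩ := ha
      exact ⟨x' + a', mem_hfold_succ.mpr ⟨x', hx', a', ha', rfl⟩, map_add _ _ _⟩
    · rintro ⟨z, hz, rfl⟩
      obtain ⟨x', hx', a', ha', rfl⟩ := mem_hfold_succ.mp hz
      exact ⟨π x', Finset.mem_image_of_mem _ hx', π a', Finset.mem_image_of_mem _ ha',
        (map_add _ _ _).symm⟩

theorem lift_card (π : G →+ Q) (A : Finset G) (q : Q) (i : ℕ) :
    (hfold (A.image π) i).card * (A.filter (fun a => π a = q)).card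
      ≤ (hfold A (i + 1)).card := by
  classical
  have h1 : ∀ c ∈ hfold (A.image π) i, ∃ x ∈ hfold A i, π x = c := by
    intro c hc
    rw [fold_image, Finset.mem_image] at hc
    exact hc
  choose! f hf hf' using h1
  rw [← Finset.card_product]
  apply Finset.card_le_card_of_injOn (fun p => f p.1 + p.2)
  · intro p hp
    rw [Finset.mem_coe, Finset.mem_product, Finset.mem_filter] at hp
    rw [Finset.mem_coe, mem_hfold_succ]
    exact ⟨f p.1, hf _ hp.1, p.2, hp.2.1, rfl⟩
  · intro p hp r hr h
    rw [Finset.mem_coe, Finset.mem_product, Finset.mem_filter] at hp hr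
    have h2 := congrArg π h
    rw [map_add, map_add, hf' _ hp.1, hf' _ hr.1, hp.2.2, hr.2.2] at h2
    have h3 := add_right_cancel h2
    have h4 : f p.1 + p.2 = f r.1 + r.2 := h
    rw [h3] at h4
    exact Prod.ext h3 (add_left_cancel h4)

theorem pigeon (π : G →+ Q) (A : Finset G) (hA : A.Nonempty) :
    ∃ q ∈ A.image π, A.card ≤ (A.image π).card * (A.filter (fun a => π a = q)).card := by
  obtain ⟨q, hq, hmax⟩ := Finset.exists_max_image (A.image π)
    (fun q => (A.filter (fun a => π a = q)).card) (hA.image π)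
  refine ⟨q, hq, ?_⟩
  rw [Finset.card_eq_sum_card_image π A]
  have := Finset.sum_le_card_nsmul (A.image π)
    (fun q => (A.filter (fun a => π a = q)).card) _ hmax
  rwa [smul_eq_mul] at this

end proj

open scoped Pointwise in
theorem fold_add {N : ℕ} (B : Finset (ZMod N)) (i : ℕ) : hfold B (i + 1) = hfold B i + B := by
  ext y
  rw [mem_hfold_succ, Finset.mem_add]

theorem cd_step {N : ℕ} (hN : 2 ≤ N) {B : Finset (ZMod N)} {i : ℕ} (h1 : (hfold B i).Nonempty)
    (hB : B.Nonempty) :
    min N.minFac ((hfold B i).card + B.card - 1) ≤ (hfold B (i + 1)).card := by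
  have h3 := cauchy_davenport_minOrder_add h1 hB
  rw [ZMod.minOrder (by omega) (by omega), ← fold_add] at h3
  simpa only [min_le_iff, Nat.cast_le] using h3

theorem cd {N : ℕ} (hN : 2 ≤ N) (B : Finset (ZMod N)) (hB : B.Nonempty) : ∀ i : ℕ,
    (hfold B i).Nonempty ∧ min N.minFac (i * (B.card - 1) + 1) ≤ (hfold B i).card
  | 0 => by
    rw [hfold]
    exact ⟨⟨0, Finset.mem_singleton_self _⟩, by rw [Finset.card_singleton]; simp⟩
  | i + 1 => by
    obtain ⟨h1, h2⟩ := cd hN B hB i
    have h4 := cd_step hN h1 hB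
    have hBc : 0 < B.card := Finset.card_pos.mpr hB
    obtain ⟨x, hx⟩ := h1
    obtain ⟨b, hb⟩ := hB
    refine ⟨⟨x + b, mem_hfold_succ.mpr ⟨x, hx, b, hb, rfl⟩⟩, ?_⟩
    refine le_trans ?_ h4
    rcases le_total N.minFac (i * (B.card - 1) + 1) with h | h
    · rw [min_eq_left h] at h2
      rw [min_eq_left (by omega : N.minFac ≤ (hfold B i).card + B.card - 1)]
      exact min_le_left _ _
    · rw [min_eq_right h] at h2
      apply min_le_min_left
      rw [add_mul, one_mul]
      omega

/-- the main lower bound -/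
theorem lower {d N j k h : ℕ} (hd : 0 < d) (hN : 2 ≤ N) (hj : 2 ≤ j) (hh : k + 2 ≤ h)
    (hq : (k * (j - 1) + 1) * d < N.minFac) (A : Finset (ZMod (d * N)))
    (hA : A.card = j * d) : (k * (j - 1) + 1) * d < (hfold A h).card := by
  haveI : NeZero N := ⟨by omega⟩
  haveI : NeZero (d * N) := ⟨Nat.mul_ne_zero (by omega) (by omega)⟩
  let π : ZMod (d * N) →+ ZMod N := (ZMod.castHom (Dvd.intro_left d rfl) (ZMod N)).toAddMonoidHom
  have hπ : Function.Surjective π := ZMod.castHom_surjective (Dvd.intro_left d rfl)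
  have hAne : A.Nonempty := Finset.card_pos.mp (by rw [hA]; positivity)
  obtain ⟨q, hq1, hq2⟩ := pigeon π A hAne
  obtain ⟨i, rfl⟩ : ∃ i, h = i + 1 := ⟨h - 1, by omega⟩
  have h1 := lift_card π A q i
  have h2 := (cd hN (A.image π) (hAne.image π) i).2
  have h3 : (A.filter (fun a => π a = q)).card ≤ d := by
    have h4 := R53.SidonPar.fibre_card π hπ q
    rw [ZMod.card, ZMod.card] at h4
    have h5 : (univ.filter (fun g : ZMod (d * N) => π g = q)).card = d := by
      have : N * (univ.filter (fun g : ZMod (d * N) => π g = q)).card = N * d := by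
        rw [h4, mul_comm]
      exact Nat.eq_of_mul_eq_mul_left (by omega) this
    refine le_trans ?_ h5.le
    exact Finset.card_le_card (Finset.filter_subset_filter _ (Finset.subset_univ _))
  generalize (A.filter (fun a => π a = q)).card = f at *
  generalize hs : (A.image π).card = s at *
  generalize (hfold (A.image π) i).card = t at *
  rw [hA] at hq2
  have hf0 : 0 < f := by
    rcases Nat.eq_zero_or_pos f with h0 | h0
    · rw [h0] at hq2
      have : 0 < j * d := by positivity
      omega
    · exact h0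
  refine lt_of_lt_of_le ?_ h1
  rcases le_total N.minFac (i * (s - 1) + 1) with h | h
  · rw [min_eq_left h] at h2
    calc (k * (j - 1) + 1) * d < N.minFac := hq
      _ ≤ t * 1 := by omega
      _ ≤ t * f := Nat.mul_le_mul_left _ hf0
  · rw [min_eq_right h] at h2
    have hsj : j ≤ s := by
      by_contra hcon
      push Not at hcon
      have : s * f ≤ s * d := Nat.mul_le_mul_left _ h3
      have : s * d < j * d := Nat.mul_lt_mul_of_pos_right hcon hd
      omega
    obtain ⟨J, rfl⟩ : ∃ J, j = J + 2 := ⟨j - 2, by omega⟩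
    obtain ⟨S, rfl⟩ : ∃ S, s = S + (J + 2) := ⟨s - (J + 2), by omega⟩
    have e1 : J + 2 - 1 = J + 1 := by omega
    have e2 : S + (J + 2) - 1 = S + (J + 1) := by omega
    rw [e1]
    rw [e2] at h2
    obtain ⟨I, rfl⟩ : ∃ I, i = k + 1 + I := ⟨i - (k + 1), by omega⟩
    -- multiply by s
    have h4 : (k * (J + 1) + 1) * d * (S + (J + 2)) < t * f * (S + (J + 2)) := by
      have h5 : ((k + 1 + I) * (S + (J + 1)) + 1) * ((J + 2) * d) ≤ t * ((S + (J + 2)) * f) :=
        Nat.mul_le_mul h2 hq2
      have h6 : (k * (J + 1) + 1) * (S + (J + 2)) <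
          ((k + 1 + I) * (S + (J + 1)) + 1) * (J + 2) := by
        nlinarith [Nat.zero_le (I * (S + (J + 1)) * (J + 2)), Nat.zero_le (k * S),
          Nat.zero_le (S * J), Nat.zero_le (k * J), Nat.zero_le (k * S * J)]
      have h7 := Nat.mul_lt_mul_of_pos_right h6 hd
      calc (k * (J + 1) + 1) * d * (S + (J + 2)) = (k * (J + 1) + 1) * (S + (J + 2)) * d := by ring
        _ < ((k + 1 + I) * (S + (J + 1)) + 1) * (J + 2) * d := h7
        _ = ((k + 1 + I) * (S + (J + 1)) + 1) * ((J + 2) * d) := by ring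
        _ ≤ t * ((S + (J + 2)) * f) := h5
        _ = t * f * (S + (J + 2)) := by ring
    exact lt_of_mul_lt_mul_right h4 (Nat.zero_le _)

end R53.RestSum
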