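import Mathlib
import Pool.Agent.R53.RestSum

/-! Construction and final assembly. -/

namespace R53.RestSum

open Finset

/-- the union of `t` consecutive cosets of the subgroup of order `d` of `ZMod (d*N)` -/
def cosets (d N t : ℕ) : Finset (ZMod (d * N)) :=
  (Finset.range t ×ˢ Finset.range d).image (fun p => ((p.1 + N * p.2 : ℕ) : ZMod (d * N)))

theorem cosets_card_le (d N t : ℕ) : (cosets d N t).card ≤ t * d := by
  refine le_trans Finset.card_image_le ?_
  rw [Finset.card_product, Finset.card_range, Finset.card_range]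

theorem cosets_card {d N t : ℕ} (hd : 0 < d) (hN : 0 < N) (ht : t ≤ N) :
    (cosets d N t).card = t * d := by
  rw [cosets, Finset.card_image_of_injOn, Finset.card_product, Finset.card_range,
    Finset.card_range]
  intro p hp r hr h
  rw [Finset.mem_coe, Finset.mem_product, Finset.mem_range, Finset.mem_range] at hp hr
  have bound : ∀ a b : ℕ, a < t → b < d → a + N * b < d * N := by
    intro a b ha hb
    obtain ⟨c, rfl⟩ := Nat.exists_eq_add_of_lt hb
    nlinarith [Nat.zero_le (c * N)]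
  have h1 : (p.1 + N * p.2) % (d * N) = (r.1 + N * r.2) % (d * N) :=
    (ZMod.natCast_eq_natCast_iff' _ _ _).mp h
  rw [Nat.mod_eq_of_lt (bound _ _ hp.1 hp.2), Nat.mod_eq_of_lt (bound _ _ hr.1 hr.2)] at h1
  have hp1 : p.1 < N := by omega
  have hr1 : r.1 < N := by omega
  have h2 : p.1 = r.1 := by
    have := congrArg (· % N) h1
    simpa [Nat.add_mul_mod_self_left, Nat.mod_eq_of_lt hp1, Nat.mod_eq_of_lt hr1] using this
  have h3 : N * p.2 = N * r.2 := by omega
  exact Prod.ext h2 (Nat.eq_of_mul_eq_mul_left hN h3)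

theorem fold_cosets {d N j : ℕ} (hd : 0 < d) (hj : 1 ≤ j) : ∀ i : ℕ,
    hfold (cosets d N j) i ⊆ cosets d N (i * (j - 1) + 1)
  | 0 => by
    rw [hfold, Finset.singleton_subset_iff, cosets, Finset.mem_image]
    refine ⟨(0, 0), ?_, by simp⟩
    rw [Finset.mem_product, Finset.mem_range, Finset.mem_range]
    exact ⟨by simp, hd⟩
  | i + 1 => by
    intro y hy
    obtain ⟨x, hx, a, ha, rfl⟩ := mem_hfold_succ.mp hy
    have hx' := fold_cosets hd hj i hx
    rw [cosets, Finset.mem_image] at hx' ha ⊢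
    obtain ⟨p, hp, rfl⟩ := hx'
    obtain ⟨r, hr, rfl⟩ := ha
    rw [Finset.mem_product, Finset.mem_range, Finset.mem_range] at hp hr
    refine ⟨(p.1 + r.1, (p.2 + r.2) % d), ?_, ?_⟩
    · rw [Finset.mem_product, Finset.mem_range, Finset.mem_range]
      refine ⟨?_, Nat.mod_lt _ hd⟩
      have : (i + 1) * (j - 1) = i * (j - 1) + (j - 1) := by ring
      simp only
      omega
    · rw [← Nat.cast_add]
      rw [ZMod.natCast_eq_natCast_iff']
      simp only
      have h1 : N * ((p.2 + r.2) % d) + (d * N) * ((p.2 + r.2) / d) = N * (p.2 + r.2) := by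
        conv_rhs => rw [← Nat.mod_add_div (p.2 + r.2) d]
        ring
      have h2 : p.1 + N * p.2 + (r.1 + N * r.2)
          = (p.1 + r.1 + N * ((p.2 + r.2) % d)) + (d * N) * ((p.2 + r.2) / d) := by
        rw [add_assoc (p.1 + r.1), h1]; ring
      rw [h2, Nat.add_mul_mod_self_left]

/-- minimum size of `hA` over `m`-subsets of `ZMod n` -/
noncomputable def u (n m h : ℕ) : ℕ :=
  sInf {t | ∃ A : Finset (ZMod n), A.card = m ∧ (hfold A h).card = t}

/-- minimum size of the restricted sumset over `m`-subsets of `ZMod n` -/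
noncomputable def uhat (n m h : ℕ) : ℕ :=
  sInf {t | ∃ A : Finset (ZMod n), A.card = m ∧ (hhat A h).card = t}

theorem uhat_symm (n m h : ℕ) (hh : h ≤ m) : uhat n m (m - h) = uhat n m h := by
  unfold uhat
  congr 1
  ext t
  constructor
  · rintro ⟨A, hA, ht⟩
    subst hA
    exact ⟨A, rfl, by rw [← ht, compl_card A hh]⟩
  · rintro ⟨A, hA, ht⟩
    subst hA
    exact ⟨A, rfl, by rw [← ht, compl_card A hh]⟩

theorem exists_subset (n m : ℕ) (hn : 0 < n) (hm : m ≤ n) : ∃ A : Finset (ZMod n), A.card = m := by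
  haveI : NeZero n := ⟨by omega⟩
  obtain ⟨A, _, hA⟩ := Finset.exists_subset_card_eq
    (s := (Finset.univ : Finset (ZMod n))) (n := m) (by rw [Finset.card_univ, ZMod.card]; exact hm)
  exact ⟨A, hA⟩

theorem uhat_le_u (n m h : ℕ) (hn : 0 < n) (hm : m ≤ n) : uhat n m h ≤ u n m h := by
  obtain ⟨A0, hA0⟩ := exists_subset n m hn hm
  have hne : {t | ∃ A : Finset (ZMod n), A.card = m ∧ (hfold A h).card = t}.Nonempty :=
    ⟨_, A0, hA0, rfl⟩
  obtain ⟨A, hA, ht⟩ := Nat.sInf_mem hne
  unfold u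
  rw [← ht]
  exact le_trans (Nat.sInf_le ⟨A, hA, rfl⟩) (Finset.card_le_card (hhat_subset A h))

theorem uhat_small {d N j k : ℕ} (hd : 0 < d) (hN : 0 < N) (hj : 1 ≤ j) (hjN : j ≤ N) :
    uhat (d * N) (j * d) k ≤ (k * (j - 1) + 1) * d := by
  refine le_trans (Nat.sInf_le ⟨cosets d N j, cosets_card hd hN hjN, rfl⟩) ?_
  refine le_trans (Finset.card_le_card (hhat_subset _ _)) ?_
  exact le_trans (Finset.card_le_card (fold_cosets hd hj k)) (cosets_card_le _ _ _)

theorem u_large {d N j k h : ℕ} (hd : 0 < d) (hN : 2 ≤ N) (hj : 2 ≤ j) (hh : k + 2 ≤ h)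
    (hjN : j ≤ N) (hq : (k * (j - 1) + 1) * d < N.minFac) :
    (k * (j - 1) + 1) * d < u (d * N) (j * d) h := by
  have hn : 0 < d * N := Nat.mul_pos hd (by omega)
  have hm : j * d ≤ d * N := by rw [mul_comm]; exact Nat.mul_le_mul_left _ hjN
  obtain ⟨A0, hA0⟩ := exists_subset (d * N) (j * d) hn hm
  have hne : {t | ∃ A : Finset (ZMod (d * N)), A.card = j * d ∧ (hfold A h).card = t}.Nonempty :=
    ⟨_, A0, hA0, rfl⟩
  obtain ⟨A, hA, ht⟩ := Nat.sInf_mem hne
  unfold u
  rw [← ht]
  exact lower hd hN hj hh hq A hA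

end R53.RestSum
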