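import Mathlib
import Pool.Agent.R53.SidonPar
import Pool.Agent.R53.SidonParC

/-! Consequences of the parity obstruction. -/

namespace R53.SidonPar

open Finset

theorem zmod2_smul : ∀ x : ZMod 2, (2 : ℕ) • x = 0 := by decide

theorem dual_surj (p : ℕ) [Fact p.Prime] (V : Type*) [AddCommGroup V] [Module (ZMod p) V] (v : V)
    (hv : v ≠ 0) : ∃ χ : V →+ ZMod p, Function.Surjective χ := by
  have hdual : ∃ ψ : Module.Dual (ZMod p) V, ψ v ≠ 0 := by
    by_contra hcon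
    push Not at hcon
    exact hv ((Module.forall_dual_apply_eq_zero_iff (ZMod p) _).mp hcon)
  obtain ⟨ψ, hψ⟩ := hdual
  refine ⟨ψ.toAddMonoidHom, ?_⟩
  intro y
  refine ⟨(y * (ψ v)⁻¹) • v, ?_⟩
  show ψ ((y * (ψ v)⁻¹) • v) = y
  rw [map_smul, smul_eq_mul, mul_assoc, inv_mul_cancel₀ hψ, mul_one]

/-- a finite abelian group of order divisible by a prime `p` has a homomorphism onto `ZMod p` -/
theorem exists_hom (G : Type*) [AddCommGroup G] [Fintype G] (p : ℕ) [Fact p.Prime]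
    (h : p ∣ Fintype.card G) : ∃ φ : G →+ ZMod p, Function.Surjective φ := by
  classical
  obtain ⟨x, hx⟩ := exists_prime_addOrderOf_dvd_card p h
  have hp : p.Prime := Fact.out
  have hx0 : x ≠ 0 := by
    rintro rfl
    rw [addOrderOf_zero] at hx
    exact hp.one_lt.ne hx
  have h2x : p • x = 0 := by
    have := addOrderOf_nsmul_eq_zero x
    rwa [hx] at this
  let f : G →+ G := nsmulAddMonoidHom p
  have hf : ∀ g, f g = p • g := fun g => rfl
  have hninj : ¬ Function.Injective f := by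
    intro hinj
    exact hx0 (hinj (by rw [hf, hf, h2x, smul_zero]))
  have hnsurj : ¬ Function.Surjective f := fun hs => hninj (Finite.injective_iff_surjective.mpr hs)
  have : ∃ v : G, v ∉ f.range := by
    by_contra hcon
    push Not at hcon
    exact hnsurj (fun y => hcon y)
  obtain ⟨v, hv⟩ := this
  letI : Module (ZMod p) (G ⧸ f.range) := AddCommGroup.zmodModule (by
    intro q
    obtain ⟨g, rfl⟩ := QuotientAddGroup.mk_surjective q
    rw [← QuotientAddGroup.mk_nsmul]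
    exact (QuotientAddGroup.eq_zero_iff _).mpr ⟨g, rfl⟩)
  have hv' : (QuotientAddGroup.mk v : G ⧸ f.range) ≠ 0 := fun h0 =>
    hv ((QuotientAddGroup.eq_zero_iff v).mp h0)
  obtain ⟨χ, hχ⟩ := dual_surj p (G ⧸ f.range) _ hv'
  exact ⟨χ.comp (QuotientAddGroup.mk' f.range), hχ.comp (QuotientAddGroup.mk'_surjective _)⟩

theorem even_cond {G : Type*} [AddCommGroup G] [Fintype G] {A : Finset G} (hA : IsSidon A)
    (h : Even (Fintype.card G)) :
    ∃ c : ℕ, c % 2 = A.card % 2 ∧ A.card ^ 2 ≤ Fintype.card G + c ^ 2 ∧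
      c ^ 2 + A.card ^ 2 + 2 ≤ Fintype.card G + 2 * A.card := by
  classical
  haveI : Fact (Nat.Prime 2) := ⟨Nat.prime_two⟩
  obtain ⟨φ, hφ⟩ := exists_hom G 2 (even_iff_two_dvd.mp h)
  obtain ⟨c, h1, h2, h3⟩ := parity hA φ hφ
  have h4 : 0 < (univ.filter (fun g : G => φ g = 0 ∧ (2 : ℕ) • g = 0)).card := by
    apply Finset.card_pos.mpr
    refine ⟨0, ?_⟩
    rw [Finset.mem_filter]
    exact ⟨Finset.mem_univ _, map_zero φ, smul_zero _⟩
  exact ⟨c, h1, by omega, by omega⟩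

/-- order `2 mod 4` -/
theorem two_mod_four {G : Type*} [AddCommGroup G] [Fintype G] {A : Finset G} (hA : IsSidon A)
    (h : Fintype.card G % 4 = 2) :
    ∃ c : ℕ, c % 2 = A.card % 2 ∧ A.card ^ 2 + 2 ≤ Fintype.card G + c ^ 2 ∧
      c ^ 2 + A.card ^ 2 + 2 ≤ Fintype.card G + 2 * A.card := by
  classical
  haveI : Fact (Nat.Prime 2) := ⟨Nat.prime_two⟩
  have hev : Even (Fintype.card G) := Nat.even_iff.mpr (by omega)
  obtain ⟨φ, hφ⟩ := exists_hom G 2 (even_iff_two_dvd.mp hev)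
  obtain ⟨c, h1, h2, h3⟩ := parity hA φ hφ
  have h4 : 0 < (univ.filter (fun g : G => φ g = 0 ∧ (2 : ℕ) • g = 0)).card := by
    apply Finset.card_pos.mpr
    refine ⟨0, ?_⟩
    rw [Finset.mem_filter]
    exact ⟨Finset.mem_univ _, map_zero φ, smul_zero _⟩
  obtain ⟨x, hx⟩ := exists_prime_addOrderOf_dvd_card 2 (even_iff_two_dvd.mp hev)
  have h2x : (2 : ℕ) • x = 0 := by rw [← hx]; exact addOrderOf_nsmul_eq_zero x
  have hx1 : φ x ≠ 0 := by
    intro h0
    have hcard : Nat.card φ.ker = (univ.filter (fun g : G => φ g = 0)).card := by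
      rw [Nat.card_eq_fintype_card, Fintype.card_subtype]
      congr 1
      ext g
      rw [Finset.mem_filter, Finset.mem_filter, AddMonoidHom.mem_ker]
    have hhalf := (half φ hφ).1
    have h0' : x ∈ φ.ker := AddMonoidHom.mem_ker.mpr h0
    have hdvd : addOrderOf (⟨x, h0'⟩ : φ.ker) ∣ Nat.card φ.ker := addOrderOf_dvd_natCard _
    rw [AddSubgroup.addOrderOf_mk, hx, hcard] at hdvd
    omega
  have h5 : 0 < (univ.filter (fun g : G => ¬ (φ g = 0) ∧ (2 : ℕ) • g = 0)).card := by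
    apply Finset.card_pos.mpr
    refine ⟨x, ?_⟩
    rw [Finset.mem_filter]
    exact ⟨Finset.mem_univ _, hx1, h2x⟩
  exact ⟨c, h1, by omega, by omega⟩

/-- an element of order four -/
theorem order_four {G : Type*} [AddCommGroup G] [Fintype G] {A : Finset G} (hA : IsSidon A)
    (y : G) (hy : addOrderOf y = 4) :
    ∃ c : ℕ, c % 2 = A.card % 2 ∧ A.card ^ 2 ≤ Fintype.card G + c ^ 2 ∧
      c ^ 2 + A.card ^ 2 + 4 ≤ Fintype.card G + 2 * A.card := by
  classical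
  haveI : Fact (Nat.Prime 2) := ⟨Nat.prime_two⟩
  have h4 : 4 ∣ Fintype.card G := hy ▸ addOrderOf_dvd_card
  have hev : 2 ∣ Fintype.card G := Dvd.dvd.trans (by norm_num) h4
  obtain ⟨φ, hφ⟩ := exists_hom G 2 hev
  obtain ⟨c, h1, h2, h3⟩ := parity hA φ hφ
  have h2y : (2 : ℕ) • y ≠ 0 := by
    intro h0
    have := addOrderOf_dvd_of_nsmul_eq_zero h0
    rw [hy] at this
    omega
  have h4y : (2 : ℕ) • ((2 : ℕ) • y) = 0 := by
    rw [← mul_nsmul']
    have := addOrderOf_nsmul_eq_zero y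
    rwa [hy] at this
  have h5 : 1 < (univ.filter (fun g : G => φ g = 0 ∧ (2 : ℕ) • g = 0)).card := by
    apply Finset.one_lt_card.mpr
    refine ⟨0, ?_, (2 : ℕ) • y, ?_, h2y.symm⟩
    · rw [Finset.mem_filter]
      exact ⟨Finset.mem_univ _, map_zero φ, smul_zero _⟩
    · rw [Finset.mem_filter]
      refine ⟨Finset.mem_univ _, ?_, h4y⟩
      rw [map_nsmul]
      exact zmod2_smul _
  exact ⟨c, h1, by omega, by omega⟩

/-- order divisible by three -/
theorem three_cond {G : Type*} [AddCommGroup G] [Fintype G] [DecidableEq G] {A : Finset G}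
    (hA : IsSidon A) (h : 3 ∣ Fintype.card G) :
    ∃ x y : ℤ, (3 : ℤ) ∣ (A.card : ℤ) ^ 2 - (x ^ 2 + x * y + y ^ 2) ∧
      (A.card : ℤ) ^ 2 - Fintype.card G ≤ x ^ 2 + x * y + y ^ 2 ∧
      2 * (x ^ 2 + x * y + y ^ 2) + 3 * (univ.filter (fun g : G => (2 : ℕ) • g = 0)).card
        ≤ (Fintype.card G : ℤ) - (A.card : ℤ) ^ 2 + 3 * A.card := by
  haveI : Fact (Nat.Prime 3) := ⟨Nat.prime_three⟩
  obtain ⟨φ, hφ⟩ := exists_hom G 3 h
  obtain ⟨a, b, c, h1, h2, h3⟩ := three hA φ hφ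
  have g1 : (a : ℤ) + b + c = A.card := by exact_mod_cast h1
  have g2 : 3 * ((a : ℤ) * b + b * c + c * a) ≤ Fintype.card G := by exact_mod_cast h2
  have g3 : 3 * ((a : ℤ) ^ 2 + b ^ 2 + c ^ 2)
      + 3 * (univ.filter (fun g : G => (2 : ℕ) • g = 0)).card
      ≤ Fintype.card G + 3 * A.card := by exact_mod_cast h3
  refine ⟨(a : ℤ) - b, (b : ℤ) - c, ⟨(a : ℤ) * b + b * c + c * a, ?_⟩, ?_, ?_⟩
  · rw [← g1]; ring
  · rw [← g1]; linarith [sq_nonneg ((a : ℤ) + b + c), show ((a : ℤ) + b + c) ^ 2 =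
      (((a : ℤ) - b) ^ 2 + ((a : ℤ) - b) * (b - c) + ((b : ℤ) - c) ^ 2)
        + 3 * ((a : ℤ) * b + b * c + c * a) by ring]
  · rw [← g1] at g3 ⊢
    linarith [show 2 * (((a : ℤ) - b) ^ 2 + ((a : ℤ) - b) * (b - c) + ((b : ℤ) - c) ^ 2)
      + ((a : ℤ) + b + c) ^ 2 = 3 * ((a : ℤ) ^ 2 + b ^ 2 + c ^ 2) by ring]

theorem no4 (x y : ℤ) : ¬ ((4 : ℤ) ∣ x ^ 2 + x * y + y ^ 2 - 2) := by
  intro h
  have h1 : ((x ^ 2 + x * y + y ^ 2 - 2 : ℤ) : ZMod 4) = 0 :=
    (ZMod.intCast_zmod_eq_zero_iff_dvd _ 4).mpr h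
  push_cast at h1
  have : ∀ a b : ZMod 4, a ^ 2 + a * b + b ^ 2 - 2 ≠ 0 := by decide
  exact this _ _ h1

theorem no25 (x y : ℤ) : ¬ ((25 : ℤ) ∣ x ^ 2 + x * y + y ^ 2 - 5) := by
  intro h
  have h1 : ((x ^ 2 + x * y + y ^ 2 - 5 : ℤ) : ZMod 25) = 0 :=
    (ZMod.intCast_zmod_eq_zero_iff_dvd _ 25).mpr h
  push_cast at h1
  have : ∀ a b : ZMod 25, a ^ 2 + a * b + b ^ 2 - 5 ≠ 0 := by decide
  exact this _ _ h1

/-- orders `m^2 - m + 3` with `m` not `2` modulo `3` -/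
theorem loesch {G : Type*} [AddCommGroup G] [Fintype G] {A : Finset G}
    (hA : IsSidon A) (hm : A.card % 3 ≠ 2) (hn : Fintype.card G + A.card = A.card ^ 2 + 3) :
    ∃ x y : ℤ, x ^ 2 + x * y + y ^ 2 = A.card ∨ x ^ 2 + x * y + y ^ 2 = A.card - 3 := by
  classical
  have h3 : 3 ∣ Fintype.card G := by
    have h0 : (A.card : ℕ) % 3 = 0 ∨ A.card % 3 = 1 := by omega
    have h1 : A.card ^ 2 % 3 = A.card % 3 := by
      rw [Nat.pow_mod]
      rcases h0 with h | h <;> rw [h]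
    omega
  obtain ⟨x, y, h1, h2, h4⟩ := three_cond hA h3
  have h5 : 0 < (univ.filter (fun g : G => (2 : ℕ) • g = 0)).card := by
    apply Finset.card_pos.mpr
    refine ⟨0, ?_⟩
    rw [Finset.mem_filter]
    exact ⟨Finset.mem_univ _, smul_zero _⟩
  have hn' : (Fintype.card G : ℤ) + A.card = (A.card : ℤ) ^ 2 + 3 := by exact_mod_cast hn
  have hm2 : (3 : ℤ) ∣ (A.card : ℤ) ^ 2 - A.card := by
    have h0 : (A.card : ℤ) % 3 = 0 ∨ (A.card : ℤ) % 3 = 1 := by omega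
    rcases h0 with h | h
    · exact dvd_sub (Dvd.dvd.pow (Int.dvd_of_emod_eq_zero h) (by norm_num))
        (Int.dvd_of_emod_eq_zero h)
    · have : (A.card : ℤ) ^ 2 - A.card = A.card * (A.card - 1) := by ring
      rw [this]
      exact Dvd.dvd.mul_left (by omega) _
  refine ⟨x, y, ?_⟩
  generalize x ^ 2 + x * y + y ^ 2 = L at *
  generalize (univ.filter (fun g : G => (2 : ℕ) • g = 0)).card = t at *
  generalize (A.card : ℤ) ^ 2 = s at *
  omega

/-- no abelian group whose order is in the window attains the bound -/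
theorem family {G : Type*} [AddCommGroup G] [Fintype G] {A : Finset G} (hA : IsSidon A)
    {k : ℕ} (hev : Even (Fintype.card G))
    (hub : Fintype.card G + 2 ≤ k ^ 2 * (k ^ 2 + 1) + 2 * k)
    (hAc : A.card = k ^ 2 + 1) : False := by
  obtain ⟨c, h1, h2, h3⟩ := even_cond hA hev
  rw [hAc] at h1 h2 h3
  have e1 : (k ^ 2 + 1) ^ 2 = k ^ 2 * (k ^ 2 + 1) + k ^ 2 + 1 := by ring
  rw [e1] at h2 h3
  have h4 : k ^ 2 + 3 ≤ c ^ 2 + 2 * k := by omega
  have h5 : c ^ 2 + 3 ≤ k ^ 2 + 2 * k := by omega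
  have h6 : c < k + 1 := by
    by_contra hcon
    push Not at hcon
    have : (k + 1) ^ 2 ≤ c ^ 2 := Nat.pow_le_pow_left hcon 2
    nlinarith
  have h7 : k < c + 1 := by
    by_contra hcon
    push Not at hcon
    have : (c + 1) ^ 2 ≤ k ^ 2 := Nat.pow_le_pow_left hcon 2
    nlinarith
  have h8 : c = k := by omega
  subst h8
  have h9 : (c ^ 2 + 1) % 2 = (c + 1) % 2 := by
    rw [Nat.add_mod, Nat.pow_mod]
    rcases Nat.mod_two_eq_zero_or_one c with h | h <;> rw [h] <;> omega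
  omega

theorem unique_m {m k n : ℕ} (h1 : m ^ 2 + 1 ≤ n + m) (h2 : n ≤ m ^ 2 + m)
    (h3 : k ^ 2 + 1 ≤ n + k) (h4 : n ≤ k ^ 2 + k) : m = k := by
  rcases lt_trichotomy m k with h | h | h
  · exfalso
    obtain ⟨d, rfl⟩ := Nat.exists_eq_add_of_lt h
    nlinarith
  · exact h
  · exfalso
    obtain ⟨d, rfl⟩ := Nat.exists_eq_add_of_lt h
    nlinarith

end R53.SidonPar
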